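import Pool.Agent.Helper73_Simp2.Tnum3

/-!
# MODULE TNUM: the mixed difference of the number of lattice points of a polytope
-/

set_option autoImplicit false
set_option linter.unusedVariables false
set_option linter.unusedSectionVars false

namespace Pool.Agent.Helper30_Simp2.H73

open Finset

section fubini

variable {A W : Type} [Fintype A] [Fintype W] [DecidableEq A]

lemma pr_linZ {ι : Type} [Fintype ι] (c f : W → ℤ) (n : ι → W → ℤ) (y : ι → ℤ) (q : PW c) :
    pr c f q + ∑ i, y i * pr c (n i) q = pr c (fun ρ => f ρ + ∑ i, y i * n i ρ) q := by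
  have := pr_lin c f n y q
  simpa only [Int.cast_id] using this

/-- the pairs of walls are redundant -/
lemma vn1 (n : A → W → ℤ) (r : A) (h : W → ℤ) : Vn (n1 n r) (ex1 (n r) h) = Vn n h := by
  unfold Vn
  congr 2
  ext y
  constructor
  · intro hy ρ
    exact hy (Sum.inl ρ)
  · intro hy w
    rcases w with ρ | q
    · exact hy ρ
    · have h1 := pr_linZ (n r) h n y q
      have h2 := pr_nonneg (c := n r) hy q
      show 0 ≤ pr (n r) h q + ∑ i, y i * pr (n r) (n i) q
      rw [h1]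
      exact h2

/-- the largest lower bound -/
lemma exists_low (c s : W → ℤ) (hp : ∃ ρ, 0 < c ρ) : ∃ z : ℤ, (∀ ρ, 0 < c ρ → 0 ≤ s ρ + (z + 1) * c ρ) ∧
    ∃ ρ, 0 < c ρ ∧ s ρ + z * c ρ < 0 := by
  classical
  obtain ⟨p₀, hp₀⟩ := hp
  obtain ⟨p, hpm, hpmax⟩ := Finset.exists_max_image (univ.filter fun ρ => 0 < c ρ)
    (fun ρ => - (s ρ / c ρ)) ⟨p₀, by simpa using hp₀⟩
  have hcp : 0 < c p := by simpa using hpm
  refine ⟨-(s p / c p) - 1, fun ρ hρ => ?_, p, hcp, ?_⟩
  · have h1 := hpmax ρ (by simpa using hρ)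
    have h2 := Int.emod_add_mul_ediv (s ρ) (c ρ)
    have h3 := Int.emod_nonneg (s ρ) hρ.ne'
    have h4 := mul_le_mul_of_nonneg_right h1 hρ.le
    linarith
  · have h2 := Int.emod_add_mul_ediv (s p) (c p)
    have h3 := Int.emod_lt_of_pos (s p) hcp
    linarith

lemma sum_restrict (r : A) (y : A → ℤ) (f : A → ℤ) :
    ∑ i, y i * f i = y r * f r + ∑ i : {i : A // i ≠ r}, y i.1 * f i.1 :=
  Fintype.sum_eq_add_sum_subtype_ne _ r

/-- elimination of an integral variable -/
lemma fub {n : A → W → ℤ} (hpt : Pt n) (r : A) (f : W → ℤ) :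
    Vn (n1 n r) (ex1 (n r) f + fun w => max (n1 n r r w) 0) - Vn (n1 n r) (ex1 (n r) f) =
      Vn (n2 n r) (ex2 (n r) f) := by
  obtain ⟨hpos, -⟩ := exists_signs hpt r
  set t1 : W ⊕ PW (n r) → ℤ := fun w => max (n1 n r r w) 0 with ht1
  have ht1q : ∀ q, t1 (Sum.inr q) = 0 := by
    intro q
    have : n1 n r r (Sum.inr q) = 0 := pr_self (n r) q
    simp only [ht1, this, max_self]
  have ht1ρ : ∀ ρ, t1 (Sum.inl ρ) = max (n r ρ) 0 := fun ρ => rfl
  unfold Vn
  set S1 := {y : A → ℤ | ∀ w, 0 ≤ (ex1 (n r) f + t1) w + ∑ i, y i * n1 n r i w} with hS1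
  set S0 := {y : A → ℤ | ∀ w, 0 ≤ ex1 (n r) f w + ∑ i, y i * n1 n r i w} with hS0
  set S2 := {y : {i : A // i ≠ r} → ℤ | ∀ w, 0 ≤ ex2 (n r) f w + ∑ i, y i * n2 n r i w} with hS2
  have hsub : S0 ⊆ S1 := by
    intro y hy w
    have h1 := hy w
    have h2 : 0 ≤ t1 w := le_max_right _ _
    simp only [Pi.add_apply]
    linarith
  have hfin : S1.Finite := by
    refine (finite_of_ge (pt1 hpt r) (ex1 (n r) f + t1)).subset fun y hy w => ?_
    have := hy w
    linarith
  have e1 := Set.ncard_sdiff_add_ncard_of_subset hsub hfin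
  have e2 : (S1 \ S0).ncard = S2.ncard := by
    refine Set.ncard_congr (fun y _ => fun i => y i.1) ?_ ?_ ?_
    · intro y hy w
      rcases w with ρ | q
      · have h1 := hy.1 (Sum.inl ρ.1)
        have h2 : n r ρ.1 = 0 := ρ.2
        have h3 := sum_restrict r y (fun i => n i ρ.1)
        simp only [Pi.add_apply, ht1ρ, h2] at h1
        show 0 ≤ f ρ.1 + ∑ i : {i : A // i ≠ r}, y i.1 * n i.1 ρ.1
        have h4 : ex1 (n r) f (Sum.inl ρ.1) = f ρ.1 := rfl
        have h5 : ∑ i, y i * n1 n r i (Sum.inl ρ.1) = ∑ i, y i * n i ρ.1 := rfl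
        rw [h4, h5, h3] at h1
        simp only [h2, mul_zero, max_self] at h1
        linarith
      · have h1 := hy.1 (Sum.inr q)
        simp only [Pi.add_apply, ht1q] at h1
        have h3 := sum_restrict r y (fun i => pr (n r) (n i) q)
        have h4 : ex1 (n r) f (Sum.inr q) = pr (n r) f q := rfl
        have h5 : ∑ i, y i * n1 n r i (Sum.inr q) = ∑ i, y i * pr (n r) (n i) q := rfl
        rw [h4, h5, h3, pr_self] at h1
        show 0 ≤ pr (n r) f q + ∑ i : {i : A // i ≠ r}, y i.1 * pr (n r) (n i.1) q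
        linarith
    · -- injective
      have key : ∀ y z : A → ℤ, y ∈ S1 \ S0 → z ∈ S1 \ S0 → (∀ i, i ≠ r → y i = z i) →
          ¬ y r < z r := by
        intro y z hy hz hyz hlt
        apply hz.2
        intro w
        rcases w with ρ | q
        · have h4 : ex1 (n r) f (Sum.inl ρ) = f ρ := rfl
          have h5 : ∑ i, z i * n1 n r i (Sum.inl ρ) = ∑ i, z i * n i ρ := rfl
          have h6 : ∑ i, y i * n1 n r i (Sum.inl ρ) = ∑ i, y i * n i ρ := rfl
          rw [h4, h5]
          have h1 := hy.1 (Sum.inl ρ)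
          have h2 := hz.1 (Sum.inl ρ)
          simp only [Pi.add_apply, ht1ρ] at h1 h2
          rw [h4, h6] at h1
          rw [h4, h5] at h2
          rcases le_or_gt (n r ρ) 0 with hle | hgt
          · rw [max_eq_right hle] at h2
            linarith
          · rw [max_eq_left hgt.le] at h1
            have h7 := sum_restrict r y (fun i => n i ρ)
            have h8 := sum_restrict r z (fun i => n i ρ)
            have h9 : ∑ i : {i : A // i ≠ r}, y i.1 * n i.1 ρ =
                ∑ i : {i : A // i ≠ r}, z i.1 * n i.1 ρ :=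
              Finset.sum_congr rfl fun i _ => by rw [hyz i.1 i.2]
            have h10 : (y r + 1) * n r ρ ≤ z r * n r ρ :=
              mul_le_mul_of_nonneg_right (by omega) hgt.le
            rw [h8, ← h9]
            rw [h7] at h1
            linarith
        · have h2 := hz.1 (Sum.inr q)
          simp only [Pi.add_apply, ht1q] at h2
          linarith
      intro y z hy hz hyz
      have hyz' : ∀ i, i ≠ r → y i = z i := fun i hi => congrFun hyz ⟨i, hi⟩
      have h1 := key y z hy hz hyz'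
      have h2 := key z y hz hy fun i hi => (hyz' i hi).symm
      funext i
      by_cases hi : i = r
      · subst hi
        omega
      · exact hyz' i hi
    · -- surjective
      intro y' hy'
      set s : W → ℤ := fun ρ => f ρ + ∑ i, y' i * n i.1 ρ with hs
      obtain ⟨z, hz1, p, hp, hz2⟩ := exists_low (n r) s hpos
      have hsum : ∀ ρ, f ρ + ∑ i, full r z y' i * n i ρ = s ρ + z * n r ρ := by
        intro ρ
        rw [sum_full r z y' (fun i => n i ρ)]
        simp only [hs]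
        ring
      have hpair : ∀ q : PW (n r), 0 ≤ pr (n r) s q := by
        intro q
        have h1 := hy' (Sum.inr q)
        have h2 := pr_linZ (n r) f (fun i : {i : A // i ≠ r} => n i.1) y' q
        rw [hs, ← h2]
        exact h1
      have hneg : ∀ ρ, n r ρ < 0 → 0 ≤ s ρ + z * n r ρ := by
        intro ρ hρ
        have h1 := hpair (⟨p, hp⟩, ⟨ρ, hρ⟩)
        simp only [pr, Int.cast_id] at h1
        have h2 : 0 < (- n r ρ) * (-(s p + z * n r p)) := mul_pos (by omega) (by omega)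
        have h3 : 0 < n r p * (s ρ + z * n r ρ) := by nlinarith
        exact ((mul_pos_iff_of_pos_left hp).1 h3).le
      have hzero : ∀ ρ, n r ρ = 0 → 0 ≤ s ρ := fun ρ hρ => hy' (Sum.inl ⟨ρ, hρ⟩)
      refine ⟨full r z y', ⟨?_, ?_⟩, ?_⟩
      · intro w
        rcases w with ρ | q
        · show 0 ≤ f ρ + max (n r ρ) 0 + ∑ i, full r z y' i * n i ρ
          have h1 := hsum ρ
          rcases lt_trichotomy (n r ρ) 0 with h | h | h
          · have := hneg ρ h
            rw [max_eq_right h.le]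
            linarith
          · have := hzero ρ h
            rw [h, mul_zero] at h1
            rw [h, max_self]
            linarith
          · have := hz1 ρ h
            rw [max_eq_left h.le]
            linarith
        · show 0 ≤ pr (n r) f q + t1 (Sum.inr q) + ∑ i, full r z y' i * pr (n r) (n i) q
          rw [ht1q, add_zero, sum_full r z y' (fun i => pr (n r) (n i) q), pr_self, mul_zero,
            zero_add]
          exact hy' (Sum.inr q)
      · intro hcon
        have h1 := hcon (Sum.inl p)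
        have h2 := hsum p
        have h3 : 0 ≤ f p + ∑ i, full r z y' i * n i p := h1
        linarith
      · funext i
        simp [full, i.2]
  rw [← e1, e2]
  push_cast
  ring

end fubini

section induction

/-- the estimate for the extensions -/
lemma pr_close {W : Type} [Fintype W] (c h : W → ℤ) (g : W → ℝ) (M ε : ℝ)
    (hh : ∀ ρ, |(h ρ : ℝ) - M * g ρ| ≤ ε) (q : PW c) :
    |((pr c h q : ℤ) : ℝ) - M * pr c g q| ≤ (1 + 2 * ∑ ρ, |(c ρ : ℝ)|) * ε := by
  have h0 : 0 ≤ ε := (abs_nonneg _).trans (hh q.1)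
  have h1 : |(c q.1 : ℝ)| ≤ ∑ ρ, |(c ρ : ℝ)| :=
    Finset.single_le_sum (f := fun ρ => |(c ρ : ℝ)|) (fun _ _ => abs_nonneg _) (Finset.mem_univ _)
  have h2 : |(c q.2 : ℝ)| ≤ ∑ ρ, |(c ρ : ℝ)| :=
    Finset.single_le_sum (f := fun ρ => |(c ρ : ℝ)|) (fun _ _ => abs_nonneg _) (Finset.mem_univ _)
  have e : ((pr c h q : ℤ) : ℝ) - M * pr c g q = -(c q.2 : ℝ) * ((h q.1 : ℝ) - M * g q.1) +
      (c q.1 : ℝ) * ((h q.2 : ℝ) - M * g q.2) := by
    simp only [pr, Int.cast_id]
    push_cast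
    ring
  rw [e]
  refine (abs_add_le _ _).trans ?_
  rw [abs_mul, abs_mul, abs_neg]
  have h3 := mul_le_mul h2 (hh q.1) (abs_nonneg _) ((abs_nonneg _).trans h2)
  have h4 := mul_le_mul h1 (hh q.2) (abs_nonneg _) ((abs_nonneg _).trans h1)
  linarith

lemma Neg.pull {W W' : Type} [Fintype W] [Fintype W'] {g : W → ℝ} {g' : W' → ℝ}
    {F : (W' → ℤ) → ℤ} (hF : Neg g' F) (L : (W → ℤ) → (W' → ℤ)) (C : ℝ) (hC : 0 < C)
    (hL : ∀ (h : W → ℤ) (M ε : ℝ), 0 ≤ ε → (∀ ρ, |(h ρ : ℝ) - M * g ρ| ≤ ε) →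
      ∀ w, |(L h w : ℝ) - M * g' w| ≤ C * ε) : Neg g (fun h => F (L h)) := by
  obtain ⟨η, hη, M₀, h⟩ := hF
  refine ⟨η / C, div_pos hη hC, M₀, fun M hM k hk => h M hM _ fun w => ?_⟩
  refine (hL k M (η / C * M) (by positivity) hk w).trans (le_of_eq ?_)
  field_simp

lemma Neg.pull1 {W : Type} [Fintype W] {c : W → ℤ} {g : W → ℝ} {F : (W ⊕ PW c → ℤ) → ℤ}
    (hF : Neg (ex1 c g) F) : Neg g (fun h => F (ex1 c h)) := by
  have hC : (0 : ℝ) ≤ ∑ ρ, |(c ρ : ℝ)| := Finset.sum_nonneg fun _ _ => abs_nonneg _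
  refine hF.pull (ex1 c) (1 + 2 * ∑ ρ, |(c ρ : ℝ)|) (by linarith) fun h M ε hε hh w => ?_
  rcases w with ρ | q
  · have h1 := hh ρ
    have h2 : ε ≤ (1 + 2 * ∑ ρ, |(c ρ : ℝ)|) * ε := le_mul_of_one_le_left hε (by linarith)
    exact h1.trans h2
  · exact pr_close c h g M ε hh q

lemma Neg.pull2 {W : Type} [Fintype W] {c : W → ℤ} {g : W → ℝ}
    {F : ({ρ : W // c ρ = 0} ⊕ PW c → ℤ) → ℤ}
    (hF : Neg (ex2 c g) F) : Neg g (fun h => F (ex2 c h)) := by
  have hC : (0 : ℝ) ≤ ∑ ρ, |(c ρ : ℝ)| := Finset.sum_nonneg fun _ _ => abs_nonneg _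
  refine hF.pull (ex2 c) (1 + 2 * ∑ ρ, |(c ρ : ℝ)|) (by linarith) fun h M ε hε hh w => ?_
  rcases w with ρ | q
  · have h1 := hh ρ
    have h2 : ε ≤ (1 + 2 * ∑ ρ, |(c ρ : ℝ)|) * ε := le_mul_of_one_le_left hε (by linarith)
    exact h1.trans h2
  · exact pr_close c h g M ε hh q

lemma ex1_nonneg {W : Type} {c f : W → ℤ} (hf : ∀ ρ, 0 ≤ f ρ) (w : W ⊕ PW c) : 0 ≤ ex1 c f w := by
  rcases w with ρ | q
  · exact hf ρ
  · exact pr_nonneg hf q

lemma ex2_nonneg {W : Type} {c f : W → ℤ} (hf : ∀ ρ, 0 ≤ f ρ) (w : {ρ : W // c ρ = 0} ⊕ PW c) :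
    0 ≤ ex2 c f w := by
  rcases w with ρ | q
  · exact hf ρ
  · exact pr_nonneg hf q

lemma ex2_pos {W : Type} {c : W → ℤ} {g : W → ℝ} (hg : ∀ ρ, 0 < g ρ)
    (w : {ρ : W // c ρ = 0} ⊕ PW c) : 0 < ex2 c g w := by
  rcases w with ρ | q
  · exact hg ρ
  · have hp : (0 : ℝ) < c q.1 := by exact_mod_cast q.1.2
    have hm : (c q.2 : ℝ) < 0 := by exact_mod_cast q.2.2
    show 0 < pr c g q
    simp only [pr]
    push_cast
    have h3 := mul_pos (by linarith : 0 < -(c q.2 : ℝ)) (hg q.1)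
    have h4 := mul_pos hp (hg q.2)
    linarith

lemma ex1_sub {W : Type} (c f f' : W → ℤ) (w : W ⊕ PW c) :
    ex1 c (fun ρ => f ρ - f' ρ) w = ex1 c f w - ex1 c f' w := by
  rcases w with ρ | q
  · rfl
  · show pr c (fun ρ => f ρ - f' ρ) q = pr c f q - pr c f' q
    simp only [pr]
    ring

lemma ex2_sub {W : Type} (c f f' : W → ℤ) (w : {ρ : W // c ρ = 0} ⊕ PW c) :
    ex2 c (fun ρ => f ρ - f' ρ) w = ex2 c f w - ex2 c f' w := by
  rcases w with ρ | q
  · rfl
  · show pr c (fun ρ => f ρ - f' ρ) q = pr c f q - pr c f' q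
    simp only [pr]
    ring

theorem tint : ∀ (k : ℕ) (A W : Type) [Fintype A] [Fintype W] [DecidableEq A] (n a b : A → W → ℤ)
    (g : W → ℝ), Fintype.card A = k → (∀ ρ, 0 < g ρ) → Pt n → (∀ i ρ, n i ρ = a i ρ - b i ρ) →
    (∀ i ρ, 0 ≤ a i ρ) → (∀ i ρ, 0 ≤ b i ρ) → Star n g a b →
    Neg g (fun h => act (∏ i, (T (a i) - 1)) (Vn n) h - 1) := by
  intro k
  induction k with
  | zero =>
    intro A W _ _ _ n a b g hk hg hpt hn ha hb hst
    have hemp : IsEmpty A := Fintype.card_eq_zero_iff.1 hk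
    have hη : ∃ η : ℝ, 0 < η ∧ ∀ ρ, η ≤ g ρ := by
      rcases isEmpty_or_nonempty W with hW | hW
      · exact ⟨1, one_pos, fun ρ => hW.elim ρ⟩
      · obtain ⟨ρ₀, h⟩ := Finite.exists_min g
        exact ⟨g ρ₀, hg ρ₀, h⟩
    obtain ⟨η, hη, hle⟩ := hη
    refine ⟨η, hη, 0, fun M _ h hh => ?_⟩
    have hpos : ∀ ρ, 0 ≤ h ρ := by
      intro ρ
      have h1 := (abs_le.1 (hh ρ)).1
      have h2 := mul_le_mul_of_nonneg_right (hle ρ) (Nat.cast_nonneg (α := ℝ) M)
      have : (0 : ℝ) ≤ h ρ := by linarith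
      exact_mod_cast this
    show act _ _ h - 1 = 0
    rw [Finset.univ_eq_empty, Finset.prod_empty, act_one]
    unfold Vn
    have e : {y : A → ℤ | ∀ ρ, 0 ≤ h ρ + ∑ i, y i * n i ρ} = {fun i => hemp.elim i} := by
      ext y
      constructor
      · intro _
        exact Subsingleton.elim _ _
      · intro _ ρ
        rw [Finset.univ_eq_empty, Finset.sum_empty, add_zero]
        exact hpos ρ
    rw [e, Set.ncard_singleton]
    simp
  | succ k ih =>
    intro A W _ _ _ n a b g hk hg hpt hn ha hb hst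
    have hne : Nonempty A := Fintype.card_pos_iff.1 (by omega)
    obtain ⟨r⟩ := hne
    set c := n r with hc
    -- the first system
    have hN1 : Neg (ex1 c g) (act ((∏ i ∈ univ.erase r, (T (ex1 c (a i)) - 1)) *
        (T (ex1 c (a r)) - T (fun w => max (n1 n r r w) 0))) (Vn (n1 n r))) := by
      have := repl (n := n1 n r) (a := fun i => ex1 c (a i)) (b := fun i => ex1 c (b i))
        (pt1 hpt r) (ex1 c g) (fun i w => by
          have : n i = fun ρ => a i ρ - b i ρ := funext (hn i)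
          show ex1 (n r) (n i) w = _
          rw [this]
          exact ex1_sub _ _ _ w)
        (fun i w => ex1_nonneg (ha i) w) (fun i w => ex1_nonneg (hb i) w)
        (star1 r ha hb hst) r
      rw [mem_kill] at this
      have h5 : (@Finset.erase A (fun a b => Classical.propDecidable (a = b)) univ r)
          = univ.erase r := by
        ext x
        exact (@Finset.mem_erase A (fun a b => Classical.propDecidable (a = b)) x r univ).trans
          Finset.mem_erase.symm
      rw [h5] at this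
      exact this
    -- the second system
    have hN2 := ih {i : A // i ≠ r} ({ρ : W // c ρ = 0} ⊕ PW c) (n2 n r)
      (fun i => ex2 c (a i.1)) (fun i => ex2 c (b i.1)) (ex2 c g)
      (by
        rw [Fintype.card_subtype_compl, Fintype.card_subtype_eq]
        omega)
      (ex2_pos hg) (pt2 hpt r)
      (fun i w => by
        have : n i.1 = fun ρ => a i.1 ρ - b i.1 ρ := funext (hn i.1)
        show ex2 (n r) (n i.1) w = _
        rw [this]
        exact ex2_sub _ _ _ w)
      (fun i w => ex2_nonneg (ha i.1) w) (fun i w => ex2_nonneg (hb i.1) w)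
      (star2 hpt hn r ha hb hst)
    have hsum := hN1.pull1.add hN2.pull2
    convert hsum using 1
    funext h
    simp only [Pi.add_apply]
    -- the passage to the first system
    have e1 : act (∏ i, (T (a i) - 1)) (Vn n) h =
        act (∏ i, (T (ex1 c (a i)) - 1)) (Vn (n1 n r)) (ex1 c h) := by
      rw [act_prod, act_prod]
      unfold DD
      refine Finset.sum_congr rfl fun e _ => ?_
      rw [← vn1 n r, ex1_add, ex1_sum]
    have e2 : (∏ i, (T (ex1 c (a i)) - 1)) =
        (∏ i ∈ univ.erase r, (T (ex1 c (a i)) - 1)) *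
          (T (ex1 c (a r)) - T (fun w => max (n1 n r r w) 0)) +
        (∏ i ∈ univ.erase r, (T (ex1 c (a i)) - 1)) *
          (T (fun w => max (n1 n r r w) 0) - 1) := by
      rw [← Finset.mul_prod_erase univ _ (Finset.mem_univ r)]
      ring
    have e3 : act ((∏ i ∈ univ.erase r, (T (ex1 c (a i)) - 1)) *
          (T (fun w => max (n1 n r r w) 0) - 1)) (Vn (n1 n r)) (ex1 c h) =
        act (∏ i : {i : A // i ≠ r}, (T (ex2 c (a i.1)) - 1)) (Vn (n2 n r)) (ex2 c h) := by
      rw [act_mul, act_prod]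
      have e4 : (∏ i : {i : A // i ≠ r}, (T (ex2 c (a i.1)) - 1)) =
          ∏ i ∈ univ.erase r, (T (ex2 c (a i)) - 1) :=
        (Finset.prod_subtype (univ.erase r) (by simp) (fun i => T (ex2 c (a i)) - 1)).symm
      rw [e4, act_prod]
      unfold DD
      refine Finset.sum_congr rfl fun e _ => ?_
      congr 1
      rw [← ex1_sum, ← ex1_add, ← ex2_sum, ← ex2_add, act_sub, Pi.sub_apply, act_T, act_one]
      exact fub hpt r _
    rw [e1, e2, act_add, Pi.add_apply, e3]
    ring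

end induction

/-- MODULE TNUM -/
theorem tnum : TStmt := by
  classical
  intro A W _ _ a b g hg hpt hst
  set n : A → W → ℤ := fun i ρ => (a i ρ : ℤ) - b i ρ with hn
  have hcast : ∀ (y : A → ℝ) ρ, ∑ i, y i * (n i ρ : ℝ) = ∑ i, y i * ((a i ρ : ℝ) - b i ρ) := by
    intro y ρ
    refine Finset.sum_congr rfl fun i _ => ?_
    simp only [hn]
    push_cast
    ring
  have hpt' : Pt n := by
    intro y hy
    exact hpt y fun ρ => by rw [← hcast]; exact hy ρ
  have hst' : Star n g (fun i ρ => (a i ρ : ℤ)) (fun i ρ => (b i ρ : ℤ)) := by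
    intro y hy ⟨ρ, hρ⟩
    obtain ⟨i, hi⟩ := hst y (fun ρ => by rw [← hcast]; exact hy ρ) ⟨ρ, by rw [← hcast]; exact hρ⟩
    refine ⟨i, fun hcon => hi ?_⟩
    unfold Van at hcon
    simp only [hcast, Nat.cast_eq_zero] at hcon
    exact hcon
  obtain ⟨η, hη, M₀, h⟩ := tint (Fintype.card A) A W n (fun i ρ => (a i ρ : ℤ))
    (fun i ρ => (b i ρ : ℤ)) g rfl hg hpt' (fun i ρ => rfl) (fun i ρ => Int.natCast_nonneg _)
    (fun i ρ => Int.natCast_nonneg _) hst'
  refine ⟨η, hη, M₀, fun M hM k hk => ?_⟩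
  have h1 := h M hM k hk
  have h1' := sub_eq_zero.1 h1
  rw [act_prod] at h1'
  unfold DD at h1'
  rw [Finset.powerset_univ] at h1'
  refine Eq.trans ?_ h1'
  refine Finset.sum_congr rfl fun e _ => ?_
  rw [Finset.card_univ]
  congr 1
  have e0 : ∀ y : A → ℤ, (∀ ρ, 0 ≤ k ρ + ∑ i, ((y i + if i ∈ e then 1 else 0) * (a i ρ : ℤ) -
      y i * (b i ρ : ℤ))) ↔ y ∈ {y : A → ℤ | ∀ ρ, 0 ≤ (k + ∑ i ∈ e, fun ρ => (a i ρ : ℤ)) ρ +
        ∑ i, y i * n i ρ} := by
    intro y
    rw [Set.mem_ofPred_eq]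
    refine forall_congr' fun ρ => ?_
    have e1 : ∑ i, ((y i + if i ∈ e then 1 else 0) * (a i ρ : ℤ) - y i * (b i ρ : ℤ)) =
        (∑ i ∈ e, (fun ρ => (a i ρ : ℤ))) ρ + ∑ i, y i * n i ρ := by
      rw [Finset.sum_apply, ← Finset.sum_ite_mem_eq e, ← Finset.sum_add_distrib]
      refine Finset.sum_congr rfl fun i _ => ?_
      simp only [hn]
      split_ifs <;> ring
    rw [Pi.add_apply, add_assoc, ← e1]
  exact congrArg (fun m : ℕ => (m : ℤ)) (Nat.card_congr (Equiv.subtypeEquivRight e0))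

end Pool.Agent.Helper30_Simp2.H73
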