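import Pool.Agent.Helper30_Simp2.Stmts

/-!
# MODULE ZALG: the sum over the cells lies in the ideal
-/

set_option autoImplicit false
set_option linter.unusedVariables false
set_option linter.unusedSectionVars false

namespace Pool.Agent.Helper30_Simp2.H73

open Finset Pool.Agent.Helper6_Mono Pool.Agent.Helper30_Simp

section geo

variable {σ : Type} [Fintype σ] {M : Finset (σ →₀ ℕ)}

lemma dot_add (u u' : σ → ℕ) (α : σ →₀ ℕ) : dot (u + u') α = dot u α + dot u' α := by
  unfold dot
  rw [← Finset.sum_add_distrib]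
  exact Finset.sum_congr rfl fun i _ => by simp [add_mul]

lemma dot_zero (α : σ →₀ ℕ) : dot (0 : σ → ℕ) α = 0 := by simp [dot]

lemma slk_add (u u' : σ → ℕ) (N N' : ℕ) (ρ : Wa M) :
    slk M (u + u') (N + N') ρ = slk M u N ρ + slk M u' N' ρ := by
  rcases ρ with i | α
  · simp [slk]
  · simp only [slk, dot_add]
    push_cast
    ring

lemma slk_zero (ρ : Wa M) : slk M 0 0 ρ = 0 := by
  rcases ρ with i | α
  · simp [slk]
  · simp [slk, dot_zero]

lemma inK_zero (S : Finset (Wa M)) : InK M S 0 0 :=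
  ⟨fun ρ => by rw [slk_zero], fun ρ _ => slk_zero ρ⟩

lemma inK_add {S : Finset (Wa M)} {u u' : σ → ℕ} {N N' : ℕ} (h : InK M S u N)
    (h' : InK M S u' N') : InK M S (u + u') (N + N') :=
  ⟨fun ρ => by
    rw [slk_add]
    exact add_nonneg (h.1 ρ) (h'.1 ρ), fun ρ hρ => by rw [slk_add, h.2 ρ hρ, h'.2 ρ hρ, add_zero]⟩

lemma inK_mono {S S' : Finset (Wa M)} (hS : S ⊆ S') {u : σ → ℕ} {N : ℕ} (h : InK M S' u N) :
    InK M S u N := ⟨h.1, fun ρ hρ => h.2 ρ (hS hρ)⟩

lemma flat_mono {x : ℚ} {S S' : Finset (Wa M)} (hS : S ⊆ S') (h : Flat M x S) : Flat M x S' :=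
  fun u N hu => h u N (inK_mono hS hu)

/-- relatively interior points -/
def Rel (M : Finset (σ →₀ ℕ)) (S : Finset (Wa M)) (u : σ → ℕ) (N : ℕ) : Prop :=
  InK M S u N ∧ ∀ ρ, slk M u N ρ = 0 → ∀ u' N', InK M S u' N' → slk M u' N' ρ = 0

lemma exists_rel (S : Finset (Wa M)) : ∃ u N, Rel M S u N := by
  classical
  have key : ∀ T : Finset (Wa M), ∃ u N, InK M S u N ∧ ∀ ρ ∈ T, slk M u N ρ = 0 →
      ∀ u' N', InK M S u' N' → slk M u' N' ρ = 0 := by
    intro T
    induction T using Finset.induction_on with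
    | empty => exact ⟨0, 0, inK_zero S, fun ρ h => absurd h (Finset.notMem_empty ρ)⟩
    | insert τ T hτ ih =>
      obtain ⟨u, N, h, h'⟩ := ih
      by_cases hc : ∀ u' N', InK M S u' N' → slk M u' N' τ = 0
      · refine ⟨u, N, h, fun ρ hρ h0 => ?_⟩
        rcases Finset.mem_insert.1 hρ with rfl | hρ
        · exact hc
        · exact h' ρ hρ h0
      · push Not at hc
        obtain ⟨v, N', hv, hne⟩ := hc
        refine ⟨u + v, N + N', inK_add h hv, fun ρ hρ h0 => ?_⟩
        rw [slk_add] at h0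
        have h1 := h.1 ρ
        have h2 := hv.1 ρ
        rcases Finset.mem_insert.1 hρ with rfl | hρ
        · exact absurd (by omega) hne
        · exact h' ρ hρ (by omega)
  obtain ⟨u, N, h, h'⟩ := key univ
  exact ⟨u, N, h, fun ρ => h' ρ (Finset.mem_univ ρ)⟩

lemma rel_ne_zero (hM : M.Nonempty) {S : Finset (Wa M)} {u : σ → ℕ} {N : ℕ} (h : Rel M S u N)
    (hS : ¬ ∀ u N, InK M S u N → u = 0 ∧ N = 0) : u ≠ 0 := by
  rintro rfl
  apply hS
  obtain ⟨α, hα⟩ := hM
  have hN : N = 0 := by
    have := h.1.1 (Sum.inr ⟨α, hα⟩)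
    simp only [slk, dot_zero] at this
    omega
  subst hN
  intro u' N' h'
  have hu : u' = 0 := by
    funext i
    have := h.2 (Sum.inl i) (slk_zero _) u' N' h'
    simp only [slk] at this
    exact_mod_cast this
  refine ⟨hu, ?_⟩
  have := h.2 (Sum.inr ⟨α, hα⟩) (slk_zero _) u' N' h'
  rw [hu] at this
  simp only [slk, dot_zero] at this
  omega

lemma face_iff {x : ℚ} {S : Finset (Wa M)} (hf : Flat M x S) {u : σ → ℕ} {N : ℕ}
    (h : InK M S u N) (hu : u ≠ 0) (α : M) :
    (α : σ →₀ ℕ) ∈ face M u ↔ slk M u N (Sum.inr α) = 0 := by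
  obtain ⟨β, hβ, hmin⟩ := Finset.exists_min_image M (fun α => dot u α) ⟨α, α.2⟩
  have hge := h.1 (Sum.inr ⟨β, hβ⟩)
  simp only [slk] at hge
  have hN : dot u β = N := by
    by_contra hne
    have hlt : N < dot u β := by omega
    have hK : InK M S u (dot u β) := by
      refine ⟨fun ρ => ?_, fun ρ hρ => ?_⟩
      · rcases ρ with i | γ
        · simp [slk]
        · have := hmin γ γ.2
          simp only [slk]
          omega
      · have h2 := h.2 ρ hρ
        rcases ρ with i | γ
        · simpa [slk] using h2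
        · simp only [slk] at h2
          have := hmin γ γ.2
          omega
    have h1 := hf u N h
    have h2 := hf u _ hK
    have hx : x * ((dot u β : ℕ) - N : ℚ) = 0 := by
      rw [mul_sub, ← h1, ← h2]
      ring
    have hpos : ((dot u β : ℕ) : ℚ) - N ≠ 0 := by
      have : (N : ℚ) < (dot u β : ℕ) := by exact_mod_cast hlt
      exact (sub_pos.2 this).ne'
    have hx0 : x = 0 := (mul_eq_zero.1 hx).resolve_right hpos
    rw [hx0, zero_mul] at h1
    have h3 : ∑ i, u i = 0 := by exact_mod_cast h1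
    apply hu
    funext i
    exact (Finset.sum_eq_zero_iff.1 h3) i (Finset.mem_univ i)
  constructor
  · intro hα
    have h1 := hα.2 β hβ
    have h2 := hmin α α.2
    simp only [slk]
    omega
  · intro hα
    simp only [slk] at hα
    refine ⟨α.2, fun γ hγ => ?_⟩
    have := hmin γ hγ
    omega

/-- the walls of the apexes -/
def IsAl (M : Finset (σ →₀ ℕ)) (u : σ → ℕ) : Wa M → Prop
  | Sum.inl _ => False
  | Sum.inr α => (α : σ →₀ ℕ) ∈ face M u ∧ ∃ j, Dir M u α j

lemma dir_up {x : ℚ} {S : Finset (Wa M)} (hf : Flat M x S) {u : σ → ℕ} {N : ℕ}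
    (h : Rel M S u N) (hu : u ≠ 0) {u' : σ → ℕ} {N' : ℕ} (h' : InK M S u' N') (hu' : u' ≠ 0)
    {A : σ →₀ ℕ} {j : σ} (hA : A ∈ face M u') (hj : Dir M u' A j) :
    A ∈ face M u ∧ Dir M u A j := by
  classical
  have hsub : ∀ α ∈ face M u, α ∈ face M u' := by
    intro α hα
    rw [face_iff hf h' hu' ⟨α, hα.1⟩]
    exact h.2 _ ((face_iff hf h.1 hu ⟨α, hα.1⟩).1 hα) u' N' h'
  have huj : u j ≠ 0 := by
    intro h0
    apply hj.1
    have := h.2 (Sum.inl j) (by simp [slk, h0]) u' N' h'
    simp only [slk] at this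
    exact_mod_cast this
  have hex : ∃ α ∈ face M u, α j ≠ 0 := by
    by_contra hcon
    push Not at hcon
    have hK : InK M S (u + Pi.single j 1) N := by
      have hd : ∀ γ : σ →₀ ℕ, dot (Pi.single j 1 : σ → ℕ) γ = γ j := by
        intro γ
        unfold dot
        rw [Finset.sum_eq_single j]
        · simp
        · intro i _ hi
          simp [hi]
        · intro hh
          exact absurd (Finset.mem_univ j) hh
      refine ⟨fun ρ => ?_, fun ρ hρ => ?_⟩
      · have h1 := h.1.1 ρ
        rcases ρ with i | γ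
        · simp only [slk]
          positivity
        · simp only [slk, dot_add] at h1 ⊢
          push_cast
          omega
      · have h1 := h.1.2 ρ hρ
        rcases ρ with i | γ
        · simp only [slk] at h1 ⊢
          have hi : i ≠ j := by
            rintro rfl
            exact huj (by exact_mod_cast h1)
          simp [hi]
          exact_mod_cast h1
        · have h2 := hcon γ ((face_iff hf h.1 hu γ).2 h1)
          simp only [slk, dot_add, hd, h2] at h1 ⊢
          simpa using h1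
    have h1 := hf _ _ hK
    have h2 := hf _ _ h.1
    rw [← h2] at h1
    have h3 : ∑ i, (u + Pi.single j 1 : σ → ℕ) i = ∑ i, u i := by exact_mod_cast h1
    simp only [Pi.add_apply, Finset.sum_add_distrib, Finset.sum_pi_single'] at h3
    simp at h3
  obtain ⟨α, hα, hαj⟩ := hex
  have hαA : α = A := by
    by_contra hne
    exact hαj (hj.2.2 α (hsub α hα) hne)
  subst hαA
  exact ⟨hα, huj, hj.2.1, fun β hβ hne => hj.2.2 β (hsub β hβ) hne⟩

end geo

section alg

variable {σ : Type} [Fintype σ] {M : Finset (σ →₀ ℕ)} {K : Type} [CommRing K]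

lemma mem_of_walls {a : Ideal (MvPolynomial (Wa M) K)} (q : MvPolynomial (Wa M) K)
    (s : Finset (Wa M)) (n : Wa M → ℕ)
    (h : ∀ ρ ∈ s, n ρ ≠ 0 → (1 - MvPolynomial.X ρ) * q ∈ a) :
    (1 - ∏ ρ ∈ s, MvPolynomial.X ρ ^ n ρ) * q ∈ a := by
  classical
  induction s using Finset.induction_on with
  | empty => simp
  | insert ρ s hρ ih =>
    rw [Finset.prod_insert hρ]
    have h1 := ih fun τ hτ => h τ (Finset.mem_insert_of_mem hτ)
    have h2 : (1 - (MvPolynomial.X ρ : MvPolynomial (Wa M) K) ^ n ρ) * q ∈ a := by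
      by_cases h0 : n ρ = 0
      · simp [h0]
      · obtain ⟨r, hr⟩ := sub_dvd_pow_sub_pow (1 : MvPolynomial (Wa M) K) (MvPolynomial.X ρ) (n ρ)
        rw [one_pow] at hr
        rw [hr]
        have := a.mul_mem_left r (h ρ (Finset.mem_insert_self ρ s) h0)
        convert this using 1
        ring
    have h3 := a.add_mem (a.mul_mem_left (∏ x ∈ s, MvPolynomial.X x ^ n x) h2) h1
    convert h3 using 1
    ring

open scoped Classical in
lemma Xs_insert {S : Finset (Wa M)} {ρ : Wa M} (h : ρ ∉ S) :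
    Xs M K (insert ρ S) = (1 - MvPolynomial.X ρ) * Xs M K S := by
  unfold Xs
  rw [Finset.prod_insert h]

lemma mem_of_unit {R : Type} [CommRing R] {a : Ideal R} {u p : R} (hu : IsUnit u)
    (h : u * p ∈ a) : p ∈ a := by
  obtain ⟨v, rfl⟩ := hu
  have := a.mul_mem_left (↑v⁻¹ : R) h
  rwa [← mul_assoc, Units.inv_mul, one_mul] at this

lemma Ev_eq {u : σ → ℕ} {N : ℕ} (h : ∀ ρ, 0 ≤ slk M u N ρ) :
    Ev M K u = ET M K ^ N * ∏ ρ, MvPolynomial.X ρ ^ (slk M u N ρ).toNat := by
  unfold Ev ET
  rw [Fintype.prod_sum_type, Fintype.prod_sum_type, ← Finset.prod_pow]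
  have h1 : ∀ i : σ, (MvPolynomial.X (Sum.inl i) : MvPolynomial (Wa M) K) ^ wv M u (Sum.inl i)
      = MvPolynomial.X (Sum.inl i) ^ (slk M u N (Sum.inl i)).toNat := fun i => by simp [slk, wv]
  have h2 : ∀ α : M, (MvPolynomial.X (Sum.inr α) : MvPolynomial (Wa M) K) ^ wv M u (Sum.inr α)
      = MvPolynomial.X (Sum.inr α) ^ N * MvPolynomial.X (Sum.inr α) ^
        (slk M u N (Sum.inr α)).toNat := fun α => by
    rw [← pow_add]
    congr 1
    have := h (Sum.inr α)
    simp only [slk, wv] at this ⊢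
    omega
  simp_rw [h1, h2]
  rw [Finset.prod_mul_distrib]
  ring

open scoped Classical in
/-- reduction to flat cones -/
theorem red (hExt : Ext2Stmt) (hM : M.Nonempty) (x : ℚ) (X : K)
    (a : Ideal (MvPolynomial (Wa M) K))
    (h1 : ∀ n : ℕ, n ≠ 0 → IsUnit (1 - X ^ n))
    (h2 : ∀ u : σ → ℕ, Ev M K u - MvPolynomial.C (X ^ (∑ i, u i)) ∈ a)
    (h4 : ∀ (κ : σ → ℕ) (N : ℕ), IsFacet M κ → (∃ α ∈ face M κ, dot κ α = N) →
      ((∑ i, κ i : ℕ) : ℚ) ≠ x * N →
      ∀ p, (ET M K ^ N - MvPolynomial.C (X ^ (∑ i, κ i))) * p ∈ a → p ∈ a)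
    (q : MvPolynomial (Wa M) K) : ∀ (n : ℕ) (S : Finset (Wa M)), (univ \ S).card = n →
      (∀ S', S ⊆ S' → Flat M x S' → q * Xs M K S' ∈ a) → q * Xs M K S ∈ a := by
  intro n
  induction n using Nat.strong_induction_on with
  | _ n ih =>
  intro S hn hS
  by_cases hf : Flat M x S
  · exact hS S (Finset.Subset.refl S) hf
  obtain ⟨κ, N, hκ, hK, hcase⟩ := hExt σ M hM x S hf
  have key : (ET M K ^ N - MvPolynomial.C (X ^ (∑ i, κ i))) * (q * Xs M K S) ∈ a := by
    have e1 := a.mul_mem_right (q * Xs M K S) (h2 κ)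
    have e2 : (1 - ∏ ρ, (MvPolynomial.X ρ : MvPolynomial (Wa M) K) ^ (slk M κ N ρ).toNat) *
        (q * Xs M K S) ∈ a := by
      refine mem_of_walls _ _ _ fun ρ _ hρ => ?_
      have hρS : ρ ∉ S := by
        intro h
        exact hρ (by rw [hK.2 ρ h]; rfl)
      have e3 := ih _ (by
        rw [← hn]
        apply Finset.card_lt_card
        refine ⟨Finset.sdiff_subset_sdiff (Finset.Subset.refl _) (Finset.subset_insert ρ S),
          fun hh => ?_⟩
        have := hh (Finset.mem_sdiff.2 ⟨Finset.mem_univ ρ, hρS⟩)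
        simp at this) (insert ρ S) rfl
        (fun S' hS' hfl => hS S' ((Finset.subset_insert ρ S).trans hS') hfl)
      rw [Xs_insert hρS] at e3
      convert e3 using 1
      ring
    have e3 := a.add_mem (a.mul_mem_left (ET M K ^ N) e2) e1
    rw [Ev_eq hK.1] at e3
    convert e3 using 1
    ring
  rcases hcase with rfl | ⟨hF, hα, hne⟩
  · have hu : IsUnit (ET M K ^ 0 - MvPolynomial.C (X ^ (∑ i, κ i))) := by
      have hs : ∑ i, κ i ≠ 0 := by
        intro h0
        apply hκ
        funext i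
        exact (Finset.sum_eq_zero_iff.1 h0) i (Finset.mem_univ i)
      have := (h1 _ hs).map (MvPolynomial.C (σ := Wa M))
      rw [map_sub, map_one] at this
      simpa using this
    exact mem_of_unit hu key
  · exact h4 κ N hF hα hne _ key

open scoped Classical in
theorem claim (hM : M.Nonempty) (x : ℚ) (X : K)
    (a : Ideal (MvPolynomial (Wa M) K))
    (h2 : ∀ u : σ → ℕ, Ev M K u - MvPolynomial.C (X ^ (∑ i, u i)) ∈ a)
    (h3 : ∀ S : Finset (Wa M), (∀ u N, InK M S u N → u = 0 ∧ N = 0) → Xs M K S ∈ a)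
    (h5 : AllUB M x) : ∀ (n : ℕ) (S : Finset (Wa M)), (univ \ S).card = n → Flat M x S →
      ∀ u N, Rel M S u N → u ≠ 0 → ∀ L : Finset (Wa M), (∀ ρ, IsAl M u ρ → ρ ∈ L) →
        (∏ ρ ∈ L, (MvPolynomial.X ρ - MvPolynomial.C X)) * Xs M K S ∈ a := by
  intro n
  induction n using Nat.strong_induction_on with
  | _ n ih =>
  intro S hn hf u N hR hu L hL
  obtain ⟨A, hA, j, hj, huniq⟩ := h5 S u N hf hR.1 hu
  set τ : Wa M := Sum.inr ⟨A, hA.1⟩ with hτ
  have hτL : τ ∈ L := hL τ ⟨hA, j, hj⟩
  have hEv : Ev M K (Pi.single j 1) = MvPolynomial.X τ *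
      ∏ ρ ∈ univ.erase τ, MvPolynomial.X ρ ^ wv M (Pi.single j 1) ρ := by
    unfold Ev
    rw [← Finset.mul_prod_erase univ _ (Finset.mem_univ τ)]
    congr 1
    have : wv M (Pi.single j 1) τ = 1 := by
      rw [hτ]
      simp only [wv, dot]
      rw [Finset.sum_eq_single j]
      · simp [hj.2.1]
      · intro i _ hi
        simp [hi]
      · intro hh
        exact absurd (Finset.mem_univ j) hh
    rw [this, pow_one]
  have hwv : ∀ α : M, wv M (Pi.single j 1) (Sum.inr α) = (α : σ →₀ ℕ) j := by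
    intro α
    simp only [wv, dot]
    rw [Finset.sum_eq_single j]
    · simp
    · intro i _ hi
      simp [hi]
    · intro hh
      exact absurd (Finset.mem_univ j) hh
  have e1 := a.mul_mem_left ((∏ ρ ∈ L.erase τ, (MvPolynomial.X ρ - MvPolynomial.C X)) * Xs M K S)
    (h2 (Pi.single j 1))
  rw [Finset.sum_pi_single', if_pos (Finset.mem_univ j), pow_one, hEv] at e1
  have e2 : (1 - ∏ ρ ∈ univ.erase τ, (MvPolynomial.X ρ : MvPolynomial (Wa M) K) ^
      wv M (Pi.single j 1) ρ) *
      ((∏ ρ ∈ L.erase τ, (MvPolynomial.X ρ - MvPolynomial.C X)) * Xs M K S) ∈ a := by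
    refine mem_of_walls _ _ _ fun ρ hρ hne => ?_
    have hρτ : ρ ≠ τ := (Finset.mem_erase.1 hρ).1
    -- the wall is not tight at w
    have hnt : slk M u N ρ ≠ 0 := by
      intro h0
      rcases ρ with i | α
      · have hi : i = j := by
          by_contra hi
          exact hne (by simp [wv, hi])
        subst hi
        simp only [slk] at h0
        exact hj.1 (by exact_mod_cast h0)
      · have hαf := (face_iff hf hR.1 hu α).2 h0
        have hαA : (α : σ →₀ ℕ) ≠ A := by
          intro hh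
          apply hρτ
          rw [hτ]
          congr 1
          exact Subtype.ext hh
        exact hne (by rw [hwv]; exact hj.2.2 _ hαf hαA)
    have hρS : ρ ∉ S := fun h => hnt (hR.1.2 ρ h)
    have e3 : (∏ ρ ∈ L.erase τ, (MvPolynomial.X ρ - MvPolynomial.C X)) *
        Xs M K (insert ρ S) ∈ a := by
      by_cases htr : ∀ u N, InK M (insert ρ S) u N → u = 0 ∧ N = 0
      · exact a.mul_mem_left _ (h3 _ htr)
      obtain ⟨u', N', hR'⟩ := exists_rel (M := M) (insert ρ S)
      have hu' := rel_ne_zero hM hR' htr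
      have hf' := flat_mono (Finset.subset_insert ρ S) hf
      refine ih _ ?_ (insert ρ S) rfl hf' u' N' hR' hu' _ ?_
      · rw [← hn]
        apply Finset.card_lt_card
        refine ⟨Finset.sdiff_subset_sdiff (Finset.Subset.refl _) (Finset.subset_insert ρ S),
          fun hh => ?_⟩
        have := hh (Finset.mem_sdiff.2 ⟨Finset.mem_univ ρ, hρS⟩)
        simp at this
      · intro π hπ
        rcases π with i | α
        · exact absurd hπ id
        · obtain ⟨hα, j', hj'⟩ := hπ
          have hK' : InK M S u' N' := inK_mono (Finset.subset_insert ρ S) hR'.1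
          obtain ⟨hα2, hj2⟩ := dir_up hf hR hu hK' hu' hα hj'
          refine Finset.mem_erase.2 ⟨?_, hL _ ⟨hα2, j', hj2⟩⟩
          intro hh
          rw [hτ] at hh
          have hαA : (α : σ →₀ ℕ) = A := by
            have := Sum.inr_injective hh
            rw [this]
          rw [hαA] at hj' hj2 hα
          have hjj := huniq j' hj2
          subst hjj
          have ht := hR'.1.2 ρ (Finset.mem_insert_self ρ S)
          rcases ρ with i | β
          · have hi : i = j' := by
              by_contra hi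
              exact hne (by simp [wv, hi])
            subst hi
            simp only [slk] at ht
            exact hj'.1 (by exact_mod_cast ht)
          · have hβf := (face_iff hf' hR'.1 hu' β).2 ht
            have hβA : (β : σ →₀ ℕ) ≠ A := by
              intro hh
              apply hρτ
              rw [hτ]
              congr 1
              exact Subtype.ext hh
            exact hne (by rw [hwv]; exact hj'.2.2 _ hβf hβA)
    rw [Xs_insert hρS] at e3
    convert e3 using 1
    ring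
  have e3 := a.sub_mem (a.mul_mem_left (MvPolynomial.X τ) e2) (a.neg_mem e1)
  rw [← Finset.mul_prod_erase L _ hτL]
  convert e3 using 1
  ring

/-- pairing the subsets -/
theorem dvd_pair {ι R : Type} [DecidableEq ι] [CommRing R] (E : ι → R) (y : R)
    (hy : IsUnit (1 - y)) (L' : Finset ι) : ∀ (L : Finset ι) (f : Finset ι → R), L' ⊆ L →
      (∀ S ⊆ L, ∀ ρ ∈ L', ρ ∉ S → (1 - y) * f (insert ρ S) = -(y * f S)) →
      ∏ ρ ∈ L', (E ρ - y) ∣ ∑ S ∈ L.powerset, f S * ∏ ρ ∈ L, (if ρ ∈ S then 1 - E ρ else E ρ) := by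
  obtain ⟨v, hv⟩ := hy
  induction L' using Finset.induction_on with
  | empty => intro L f _ _; simp
  | insert τ L' hτ ih =>
    intro L f hL hf
    have hτL : τ ∈ L := hL (Finset.mem_insert_self τ L')
    have hL0 : insert τ (L.erase τ) = L := Finset.insert_erase hτL
    have hn : τ ∉ L.erase τ := Finset.notMem_erase τ L
    set L0 := L.erase τ with hL0def
    rw [← hL0, Finset.sum_powerset_insert hn, ← Finset.sum_add_distrib, Finset.prod_insert hτ]
    have hterm : ∀ S ∈ L0.powerset, (f S * ∏ ρ ∈ insert τ L0, (if ρ ∈ S then 1 - E ρ else E ρ)) +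
        f (insert τ S) * ∏ ρ ∈ insert τ L0, (if ρ ∈ insert τ S then 1 - E ρ else E ρ) =
        (E τ - y) * ((↑v⁻¹ * f S) * ∏ ρ ∈ L0, (if ρ ∈ S then 1 - E ρ else E ρ)) := by
      intro S hS
      have hSL := Finset.mem_powerset.1 hS
      have hτS : τ ∉ S := fun h => hn (hSL h)
      rw [Finset.prod_insert hn, Finset.prod_insert hn, if_neg hτS,
        if_pos (Finset.mem_insert_self τ S)]
      have e1 : ∏ ρ ∈ L0, (if ρ ∈ insert τ S then 1 - E ρ else E ρ) =
          ∏ ρ ∈ L0, (if ρ ∈ S then 1 - E ρ else E ρ) := by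
        refine Finset.prod_congr rfl fun ρ hρ => ?_
        have : ρ ≠ τ := fun h => hn (h ▸ hρ)
        simp [this]
      rw [e1]
      have e2 := hf S (hSL.trans (Finset.erase_subset τ L)) τ (Finset.mem_insert_self τ L') hτS
      rw [← hv] at e2
      have e3 : f (insert τ S) = ↑v⁻¹ * -(y * f S) := by
        rw [← e2, ← mul_assoc, Units.inv_mul, one_mul]
      have e4 : (↑v⁻¹ : R) * (1 - y) = 1 := by rw [← hv, Units.inv_mul]
      rw [e3]
      have e5 : f S = ↑v⁻¹ * (1 - y) * f S := by rw [e4, one_mul]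
      calc _ = (f S * E τ - ↑v⁻¹ * (y * f S) * (1 - E τ)) *
            ∏ ρ ∈ L0, (if ρ ∈ S then 1 - E ρ else E ρ) := by ring
        _ = (↑v⁻¹ * (1 - y) * f S * E τ - ↑v⁻¹ * (y * f S) * (1 - E τ)) *
            ∏ ρ ∈ L0, (if ρ ∈ S then 1 - E ρ else E ρ) := by rw [e4, one_mul]
        _ = _ := by ring
    rw [Finset.sum_congr rfl hterm, ← Finset.mul_sum]
    refine mul_dvd_mul_left _ (ih L0 _ ?_ ?_)
    · intro ρ hρ
      refine Finset.mem_erase.2 ⟨fun h => hτ (h ▸ hρ), hL (Finset.mem_insert_of_mem hρ)⟩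
    · intro S hS ρ hρ hρS
      have := hf S (hS.trans (Finset.erase_subset τ L)) ρ (Finset.mem_insert_of_mem hρ) hρS
      calc (1 - y) * (↑v⁻¹ * f (insert ρ S)) = ↑v⁻¹ * ((1 - y) * f (insert ρ S)) := by ring
        _ = _ := by rw [this]; ring

open scoped Classical in
/-- expansion of the walls outside -/
theorem expand {a : Ideal (MvPolynomial (Wa M) K)} (U : Finset (Wa M)) (T : Finset (Wa M)) :
    ∀ q : MvPolynomial (Wa M) K, (∀ V, U ∩ T ⊆ V → V ⊆ T → q * Xs M K V ∈ a) →
      q * ∏ ρ ∈ T, (if ρ ∈ U then 1 - MvPolynomial.X ρ else MvPolynomial.X ρ) ∈ a := by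
  induction T using Finset.induction_on with
  | empty =>
    intro q h
    have := h ∅ (by simp) (by simp)
    simpa [Xs] using this
  | insert τ T hτ ih =>
    intro q h
    rw [Finset.prod_insert hτ]
    have h1 : q * (1 - MvPolynomial.X τ) *
        ∏ ρ ∈ T, (if ρ ∈ U then 1 - MvPolynomial.X ρ else MvPolynomial.X ρ) ∈ a := by
      refine ih _ fun V hV hVT => ?_
      have hτV : τ ∉ V := fun hh => hτ (hVT hh)
      have := h (insert τ V) (by
        intro ρ hρ
        obtain ⟨hρ1, hρ2⟩ := Finset.mem_inter.1 hρ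
        rcases Finset.mem_insert.1 hρ2 with rfl | hρ2
        · exact Finset.mem_insert_self _ _
        · exact Finset.mem_insert_of_mem (hV (Finset.mem_inter.2 ⟨hρ1, hρ2⟩)))
        (Finset.insert_subset_insert τ hVT)
      rw [Xs_insert hτV] at this
      convert this using 1
      ring
    by_cases hU : τ ∈ U
    · rw [if_pos hU, ← mul_assoc]
      exact h1
    · rw [if_neg hU]
      have h2 : q * ∏ ρ ∈ T, (if ρ ∈ U then 1 - MvPolynomial.X ρ else MvPolynomial.X ρ) ∈ a := by
        refine ih _ fun V hV hVT => h V ?_ (hVT.trans (Finset.subset_insert τ T))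
        intro ρ hρ
        obtain ⟨hρ1, hρ2⟩ := Finset.mem_inter.1 hρ
        rcases Finset.mem_insert.1 hρ2 with rfl | hρ2
        · exact absurd hρ1 hU
        · exact hV (Finset.mem_inter.2 ⟨hρ1, hρ2⟩)
      have h3 := a.sub_mem h2 h1
      convert h3 using 1
      ring

open scoped Classical in
/-- the monomials of a set of walls -/
noncomputable def iI (U : Finset (Wa M)) : Finset (σ →₀ ℕ) :=
  M.filter fun α => ∃ h : α ∈ M, Sum.inr ⟨α, h⟩ ∈ U

open scoped Classical in
/-- the coordinates of a set of walls -/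
noncomputable def jJ (U : Finset (Wa M)) : Finset σ := univ.filter fun i => Sum.inl i ∈ U

open scoped Classical in
/-- the walls of a cell -/
noncomputable def wc (I : Finset (σ →₀ ℕ)) (J : Finset σ) : Finset (Wa M) :=
  univ.filter fun ρ => Sum.elim (fun i => i ∈ J) (fun α : M => (α : σ →₀ ℕ) ∈ I) ρ

lemma mem_iI {U : Finset (Wa M)} (α : M) : (α : σ →₀ ℕ) ∈ iI U ↔ Sum.inr α ∈ U := by
  unfold iI
  simp

lemma mem_jJ {U : Finset (Wa M)} (i : σ) : i ∈ jJ U ↔ Sum.inl i ∈ U := by
  unfold jJ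
  simp

lemma iI_sub (U : Finset (Wa M)) : iI U ⊆ M := by
  classical
  intro α hα
  unfold iI at hα
  exact (Finset.mem_filter.1 hα).1

open scoped Classical in
lemma iI_insert (U S : Finset (Wa M)) (α : M) :
    iI (U ∪ insert (Sum.inr α) S) = insert (α : σ →₀ ℕ) (iI (U ∪ S)) := by
  ext β
  rw [Finset.mem_insert]
  constructor
  · intro h
    have hβ := iI_sub _ h
    have h1 := (mem_iI (U := U ∪ insert (Sum.inr α) S) ⟨β, hβ⟩).1 h
    rw [Finset.mem_union, Finset.mem_insert] at h1
    rcases h1 with h1 | h1 | h1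
    · exact Or.inr ((mem_iI (U := U ∪ S) ⟨β, hβ⟩).2 (Finset.mem_union_left _ h1))
    · left
      have := Sum.inr_injective h1
      rw [← this]
    · exact Or.inr ((mem_iI (U := U ∪ S) ⟨β, hβ⟩).2 (Finset.mem_union_right _ h1))
  · rintro (rfl | h)
    · exact (mem_iI (U := U ∪ insert (Sum.inr α) S) α).2
        (Finset.mem_union_right _ (Finset.mem_insert_self _ _))
    · have hβ := iI_sub _ h
      have h1 := (mem_iI (U := U ∪ S) ⟨β, hβ⟩).1 h
      refine (mem_iI (U := U ∪ insert (Sum.inr α) S) ⟨β, hβ⟩).2 ?_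
      rcases Finset.mem_union.1 h1 with h1 | h1
      · exact Finset.mem_union_left _ h1
      · exact Finset.mem_union_right _ (Finset.mem_insert_of_mem h1)

open scoped Classical in
lemma jJ_insert (U S : Finset (Wa M)) (α : M) :
    jJ (U ∪ insert (Sum.inr α) S) = jJ (U ∪ S) := by
  ext i
  rw [mem_jJ, mem_jJ, Finset.mem_union, Finset.mem_union, Finset.mem_insert]
  constructor
  · rintro (h | h | h)
    · exact Or.inl h
    · exact absurd h (by simp)
    · exact Or.inr h
  · rintro (h | h)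
    · exact Or.inl h
    · exact Or.inr (Or.inr h)

open scoped Classical in
lemma cellP_eq (U : Finset (Wa M)) : cellP M K (iI U) (jJ U) =
    ∏ ρ, (if ρ ∈ U then 1 - MvPolynomial.X ρ else MvPolynomial.X ρ) := by
  unfold cellP
  rw [Fintype.prod_sum_type, mul_comm]
  congr 1
  · refine Finset.prod_congr rfl fun i _ => ?_
    simp only [mem_jJ]
  · refine Finset.prod_congr rfl fun α _ => ?_
    simp only [mem_iI]

open scoped Classical in
lemma sum_cells (F : Finset (σ →₀ ℕ) → Finset σ → MvPolynomial (Wa M) K) :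
    ∑ I ∈ M.powerset, ∑ J ∈ (univ : Finset σ).powerset, F I J =
      ∑ U ∈ (univ : Finset (Wa M)).powerset, F (iI U) (jJ U) := by
  rw [← Finset.sum_product']
  symm
  refine Finset.sum_nbij' (fun U => (iI U, jJ U)) (fun p => wc p.1 p.2) ?_ ?_ ?_ ?_ ?_
  · intro U _
    simp [iI_sub]
  · intro p _
    simp
  · intro U _
    ext ρ
    rcases ρ with i | α
    · simp [wc, mem_jJ]
    · simp [wc, mem_iI]
  · rintro ⟨I, J⟩ hp
    simp only [Finset.mem_product, Finset.mem_powerset] at hp
    ext α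
    · by_cases hα : α ∈ M
      · have := mem_iI (U := wc (M := M) I J) ⟨α, hα⟩
        simp only at this
        rw [this]
        simp [wc]
      · constructor
        · intro h
          exact absurd (iI_sub _ h) hα
        · intro h
          exact absurd (hp.1 h) hα
    · simp [mem_jJ, wc]
  · intro U _
    rfl

lemma sum_split {R : Type} [CommRing R] {ι : Type} [Fintype ι] [DecidableEq ι] (L : Finset ι)
    (g : Finset ι → R) : ∑ U ∈ (univ : Finset ι).powerset, g U =
      ∑ U' ∈ (univ \ L).powerset, ∑ S ∈ L.powerset, g (U' ∪ S) := by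
  rw [← Finset.sum_product']
  refine Finset.sum_nbij' (fun U => (U \ L, U ∩ L)) (fun p => p.1 ∪ p.2) ?_ ?_ ?_ ?_ ?_
  · intro U _
    simp only [Finset.mem_product, Finset.mem_powerset]
    exact ⟨Finset.sdiff_subset_sdiff (Finset.subset_univ U) (Finset.Subset.refl L),
      Finset.inter_subset_right⟩
  · intro p _
    simp
  · intro U _
    exact Finset.sdiff_union_inter U L
  · rintro ⟨U, S⟩ hp
    simp only [Finset.mem_product, Finset.mem_powerset] at hp
    have h1 : ∀ ρ ∈ U, ρ ∉ L := fun ρ hρ => (Finset.mem_sdiff.1 (hp.1 hρ)).2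
    have h2 : ∀ ρ ∈ S, ρ ∈ L := fun ρ hρ => hp.2 hρ
    ext ρ
    · simp only [Finset.mem_sdiff, Finset.mem_union]
      constructor
      · rintro ⟨h | h, h'⟩
        · exact h
        · exact absurd (h2 ρ h) h'
      · intro h
        exact ⟨Or.inl h, h1 ρ h⟩
    · simp only [Finset.mem_inter, Finset.mem_union]
      constructor
      · rintro ⟨h | h, h'⟩
        · exact absurd h' (h1 ρ h)
        · exact h
      · intro h
        exact ⟨Or.inr h, h2 ρ h⟩
  · intro U _
    rw [Finset.sdiff_union_inter]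

open scoped Classical in
lemma Xs_mul (R V : Finset (Wa M)) : Xs M K R * Xs M K V = Xs M K (R ∪ V) * Xs M K (R ∩ V) := by
  unfold Xs
  exact Finset.prod_union_inter.symm

end alg

open scoped Classical in
theorem zalg (hExt : Ext2Stmt) : ZAlgStmt := by
  intro σ _ M hM x K _ X a h1 h2 h3 h4 h5 z hz
  rw [sum_cells]
  set p := ∑ U ∈ (univ : Finset (Wa M)).powerset,
    MvPolynomial.C (z (iI U) (jJ U)) * cellP M K (iI U) (jJ U) with hp
  have hred := red hExt hM x X a h1 h2 h4 p _ ∅ rfl
  have e0 : p * Xs M K ∅ = p := by simp [Xs]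
  rw [e0] at hred
  refine hred fun R _ hR => ?_
  by_cases htr : ∀ u N, InK M R u N → u = 0 ∧ N = 0
  · exact a.mul_mem_left _ (h3 R htr)
  obtain ⟨u, N, hrel⟩ := exists_rel (M := M) R
  have hu := rel_ne_zero hM hrel htr
  set L : Finset (Wa M) := univ.filter (IsAl M u) with hL
  have hLmem : ∀ ρ, ρ ∈ L ↔ IsAl M u ρ := fun ρ => by simp [hL]
  rw [hp, sum_split L, Finset.sum_mul]
  refine a.sum_mem fun U' hU' => ?_
  have hU'L : ∀ ρ ∈ U', ρ ∉ L := fun ρ hρ =>
    (Finset.mem_sdiff.1 (Finset.mem_powerset.1 hU' hρ)).2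
  set Q : MvPolynomial (Wa M) K := ∑ S ∈ L.powerset,
    MvPolynomial.C (z (iI (U' ∪ S)) (jJ (U' ∪ S))) *
      ∏ ρ ∈ L, (if ρ ∈ S then 1 - MvPolynomial.X ρ else MvPolynomial.X ρ) with hQ
  have e1 : ∑ S ∈ L.powerset, MvPolynomial.C (z (iI (U' ∪ S)) (jJ (U' ∪ S))) *
      cellP M K (iI (U' ∪ S)) (jJ (U' ∪ S)) =
      Q * ∏ ρ ∈ univ \ L, (if ρ ∈ U' then 1 - MvPolynomial.X ρ else MvPolynomial.X ρ) := by
    rw [hQ, Finset.sum_mul]
    refine Finset.sum_congr rfl fun S hS => ?_
    have hSL := Finset.mem_powerset.1 hS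
    rw [cellP_eq, mul_assoc, ← Finset.prod_sdiff (Finset.subset_univ L), mul_comm (∏ ρ ∈ univ \ L, _)]
    congr 2
    · refine Finset.prod_congr rfl fun ρ hρ => ?_
      have : ρ ∉ U' := fun h => hU'L ρ h hρ
      simp [this]
    · refine Finset.prod_congr rfl fun ρ hρ => ?_
      have : ρ ∉ S := fun h => (Finset.mem_sdiff.1 hρ).2 (hSL h)
      simp [this]
  rw [e1, mul_right_comm]
  refine expand U' (univ \ L) (Q * Xs M K R) fun V hV hVT => ?_
  have hUV : U' ⊆ V := fun ρ hρ => hV (Finset.mem_inter.2 ⟨hρ, Finset.mem_powerset.1 hU' hρ⟩)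
  have e2 : Q * Xs M K R * Xs M K V = Xs M K (R ∩ V) * (Q * Xs M K (R ∪ V)) := by
    rw [mul_assoc, Xs_mul]
    ring
  rw [e2]
  refine a.mul_mem_left _ ?_
  by_cases htr' : ∀ u N, InK M (R ∪ V) u N → u = 0 ∧ N = 0
  · exact a.mul_mem_left _ (h3 _ htr')
  obtain ⟨u', N', hrel'⟩ := exists_rel (M := M) (R ∪ V)
  have hu' := rel_ne_zero hM hrel' htr'
  have hf' := flat_mono (x := x) (Finset.subset_union_left (s₁ := R) (s₂ := V)) hR
  have hK' : InK M R u' N' := inK_mono Finset.subset_union_left hrel'.1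
  set L' : Finset (Wa M) := univ.filter (IsAl M u') with hL'
  have hcl := claim hM x X a h2 h3 h5 _ (R ∪ V) rfl hf' u' N' hrel' hu' L'
    (fun ρ hρ => by simp [hL', hρ])
  have hL'L : L' ⊆ L := by
    intro ρ hρ
    have hρ' : IsAl M u' ρ := by simpa [hL'] using hρ
    rw [hLmem]
    rcases ρ with i | α
    · exact absurd hρ' id
    · obtain ⟨hα, j, hj⟩ := hρ'
      obtain ⟨hα2, hj2⟩ := dir_up hR hrel hu hK' hu' hα hj
      exact ⟨hα2, j, hj2⟩
  have hy : IsUnit (1 - MvPolynomial.C X : MvPolynomial (Wa M) K) := by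
    have := (h1 1 one_ne_zero).map (MvPolynomial.C (σ := Wa M))
    simpa using this
  have hdvd := dvd_pair (fun ρ : Wa M => (MvPolynomial.X ρ : MvPolynomial (Wa M) K))
    (MvPolynomial.C X) hy L' L (fun S => MvPolynomial.C (z (iI (U' ∪ S)) (jJ (U' ∪ S)))) hL'L (by
      intro S hS ρ hρ hρS
      have hρ' : IsAl M u' ρ := by simpa [hL'] using hρ
      rcases ρ with i | α
      · exact absurd hρ' id
      obtain ⟨hα, j, hj⟩ := hρ'
      have hinl : ∀ i, (Sum.inl i : Wa M) ∉ S := fun i hi => by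
        have := (hLmem _).1 (hS hi)
        exact this
      have eJ := jJ_insert U' S α
      have eI := iI_insert U' S α
      have hval : Val M (iI (U' ∪ S)) (jJ (U' ∪ S)) α j := by
        have hαU : Sum.inr α ∉ U' := fun h => hU'L _ h (hL'L hρ)
        refine ⟨iI_sub _, α.2, ?_, ?_, hj.2.1, ?_⟩
        · rw [mem_iI, Finset.mem_union]
          rintro (h | h)
          · exact hαU h
          · exact hρS h
        · rw [mem_jJ, Finset.mem_union]
          rintro (h | h)
          · have := hrel'.1.2 _ (Finset.mem_union_right R (hUV h))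
            simp only [slk] at this
            exact hj.1 (by exact_mod_cast this)
          · exact hinl j h
        · intro β hβ
          have hβM := iI_sub _ hβ
          have hβ' := (mem_iI (U := U' ∪ S) ⟨β, hβM⟩).1 hβ
          have hne : β ≠ (α : σ →₀ ℕ) := by
            rintro rfl
            rcases Finset.mem_union.1 hβ' with h | h
            · exact hαU h
            · exact hρS h
          refine hj.2.2 β ?_ hne
          rw [face_iff hf' hrel'.1 hu' ⟨β, hβM⟩]
          rcases Finset.mem_union.1 hβ' with h | h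
          · exact hrel'.1.2 _ (Finset.mem_union_right R (hUV h))
          · have hal := (hLmem _).1 (hS h)
            have hβf : β ∈ face M u := hal.1
            exact hrel.2 _ ((face_iff hR hrel.1 hu ⟨β, hβM⟩).1 hβf) u' N' hK'
      have := hz _ _ _ _ hval
      rw [eJ, eI, ← map_one MvPolynomial.C, ← map_sub, ← map_mul, this, map_neg, map_mul])
  obtain ⟨r, hr⟩ := hdvd
  rw [hQ, hr]
  have := a.mul_mem_left r hcl
  convert this using 1
  ring

end Pool.Agent.Helper30_Simp2.H73
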