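import Pool.Agent.Helper30_Simp2.Stmts

/-!
# MODULE TNUM, part 1: compactness and finiteness
-/

set_option autoImplicit false
set_option linter.unusedVariables false
set_option linter.unusedSectionVars false

namespace Pool.Agent.Helper30_Simp2.H73

open Finset

section

variable {A W : Type} [Fintype A] [Fintype W]

/-- only the origin satisfies the homogeneous inequalities -/
def Pt (n : A → W → ℤ) : Prop :=
  ∀ y : A → ℝ, (∀ ρ, 0 ≤ ∑ i, y i * (n i ρ : ℝ)) → y = 0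

theorem exists_delta {n : A → W → ℤ} (hpt : Pt n) :
    ∃ δ : ℝ, 0 < δ ∧ ∀ y : A → ℝ, y ≠ 0 → ∃ ρ, ∑ i, y i * (n i ρ : ℝ) ≤ - δ * ‖y‖ := by
  have key : ∃ δ : ℝ, 0 < δ ∧ ∀ y ∈ Metric.sphere (0 : A → ℝ) 1,
      ∃ ρ, ∑ i, y i * (n i ρ : ℝ) ≤ - δ := by
    by_contra hcon
    push Not at hcon
    have h1 : ∀ k : ℕ, ∃ y ∈ Metric.sphere (0 : A → ℝ) 1,
        ∀ ρ, - (1 / ((k : ℝ) + 1)) < ∑ i, y i * (n i ρ : ℝ) := fun k => hcon _ (by positivity)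
    choose c hc1 hc2 using h1
    obtain ⟨a, ha, φ, hφ, hlim⟩ := (isCompact_sphere (0 : A → ℝ) 1).tendsto_subseq hc1
    have h0 : a = 0 := by
      refine hpt a fun ρ => ?_
      have ht : Filter.Tendsto (fun k => ∑ i, c (φ k) i * (n i ρ : ℝ)) Filter.atTop
          (nhds (∑ i, a i * (n i ρ : ℝ))) := by
        refine tendsto_finsetSum _ fun i _ => ?_
        exact ((tendsto_pi_nhds.1 hlim) i).mul_const _
      have ht2 : Filter.Tendsto (fun k => - (1 / ((φ k : ℝ) + 1))) Filter.atTop (nhds 0) := by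
        have := (tendsto_one_div_add_atTop_nhds_zero_nat (𝕜 := ℝ)).comp hφ.tendsto_atTop
        simpa using this.neg
      exact le_of_tendsto_of_tendsto' ht2 ht (fun k => (hc2 (φ k) ρ).le)
    rw [h0] at ha
    simp at ha
  obtain ⟨δ, hδ, h⟩ := key
  refine ⟨δ, hδ, fun y hne => ?_⟩
  have hn : 0 < ‖y‖ := norm_pos_iff.2 hne
  obtain ⟨ρ, hρ⟩ := h (fun i => y i / ‖y‖) (by
    have : (fun i => y i / ‖y‖) = (‖y‖)⁻¹ • y := by
      funext i
      simp [div_eq_inv_mul]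
    rw [this, mem_sphere_zero_iff_norm, norm_smul, norm_inv, norm_norm, inv_mul_cancel₀ hn.ne'])
  refine ⟨ρ, ?_⟩
  have h3 : ∑ i, y i / ‖y‖ * (n i ρ : ℝ) = (∑ i, y i * (n i ρ : ℝ)) / ‖y‖ := by
    rw [Finset.sum_div]
    exact Finset.sum_congr rfl fun i _ => by ring
  rw [h3, div_le_iff₀ hn] at hρ
  exact hρ

theorem norm_bound {n : A → W → ℤ} (hpt : Pt n) : ∃ δ : ℝ, 0 < δ ∧ ∀ (f : W → ℝ) (e : ℝ),
    0 ≤ e → ∀ y : A → ℝ, (∀ ρ, - e ≤ f ρ + ∑ i, y i * (n i ρ : ℝ)) →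
      ‖y‖ ≤ (∑ ρ, |f ρ| + e) / δ := by
  obtain ⟨δ, hδ, h⟩ := exists_delta hpt
  refine ⟨δ, hδ, fun f e he y hy => ?_⟩
  rw [le_div_iff₀ hδ]
  by_cases h0 : y = 0
  · have : 0 ≤ ∑ ρ, |f ρ| := Finset.sum_nonneg fun _ _ => abs_nonneg _
    rw [h0, norm_zero]
    linarith
  · obtain ⟨ρ, hρ⟩ := h y h0
    have h1 := hy ρ
    have h2 : |f ρ| ≤ ∑ ρ, |f ρ| :=
      Finset.single_le_sum (f := fun ρ => |f ρ|) (fun _ _ => abs_nonneg _) (Finset.mem_univ ρ)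
    have h3 := le_abs_self (f ρ)
    linarith

/-- integral points: slack `-1` at the walls in `S` -/
def QS (n : A → W → ℤ) (S : Finset W) (h : W → ℤ) : Set (A → ℤ) :=
  {y | ∀ ρ, (ρ ∈ S → h ρ + ∑ i, y i * n i ρ = -1) ∧ (ρ ∉ S → 0 ≤ h ρ + ∑ i, y i * n i ρ)}

theorem finite_of_ge {n : A → W → ℤ} (hpt : Pt n) (h : W → ℤ) :
    {y : A → ℤ | ∀ ρ, -1 ≤ h ρ + ∑ i, y i * n i ρ}.Finite := by
  obtain ⟨δ, hδ, hb⟩ := norm_bound hpt
  set C := (∑ ρ, |(h ρ : ℝ)| + 1) / δ with hC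
  refine (Set.Finite.pi' (t := fun _ : A => Set.Icc (-⌈C⌉) ⌈C⌉)
    fun _ => Set.finite_Icc _ _).subset ?_
  intro y hy i
  have h1 := hb (fun ρ => (h ρ : ℝ)) 1 zero_le_one (fun i => (y i : ℝ)) (fun ρ => by
    have := hy ρ
    exact_mod_cast this)
  have h2 : |(y i : ℝ)| ≤ C := (norm_le_pi_norm (fun i => (y i : ℝ)) i).trans h1
  have h3 := abs_le.1 h2
  have h4 := Int.le_ceil C
  constructor
  · have : (-(⌈C⌉ : ℤ) : ℝ) ≤ y i := by linarith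
    exact_mod_cast this
  · have : (y i : ℝ) ≤ (⌈C⌉ : ℤ) := by linarith
    exact_mod_cast this

theorem QS_finite {n : A → W → ℤ} (hpt : Pt n) (S : Finset W) (h : W → ℤ) :
    (QS n S h).Finite := by
  refine (finite_of_ge hpt h).subset fun y hy ρ => ?_
  by_cases hρ : ρ ∈ S
  · rw [(hy ρ).1 hρ]
  · have := (hy ρ).2 hρ
    omega

/-- a point of the polytope tight on `S` -/
def TP (n : A → W → ℤ) (g : W → ℝ) (S : Finset W) (y : A → ℝ) : Prop :=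
  (∀ ρ, 0 ≤ g ρ + ∑ i, y i * (n i ρ : ℝ)) ∧ ∀ ρ ∈ S, g ρ + ∑ i, y i * (n i ρ : ℝ) = 0

theorem nonface {n : A → W → ℤ} (hpt : Pt n) (g : W → ℝ) (S : Finset W)
    (hS : ¬ ∃ y, TP n g S y) :
    ∃ η : ℝ, 0 < η ∧ ∃ M₀ : ℕ, ∀ M : ℕ, M₀ ≤ M → ∀ h : W → ℤ,
      (∀ ρ, |(h ρ : ℝ) - M * g ρ| ≤ η * M) → QS n S h = ∅ := by
  by_contra hcon
  push Not at hcon
  have h1 : ∀ k : ℕ, ∃ (M : ℕ) (h : W → ℤ) (y : A → ℤ), k + 1 ≤ M ∧
      (∀ ρ, |(h ρ : ℝ) - M * g ρ| ≤ 1 / ((k : ℝ) + 1) * M) ∧ y ∈ QS n S h := by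
    intro k
    obtain ⟨M, hM, h, hh, hne⟩ := hcon (1 / ((k : ℝ) + 1)) (by positivity) (k + 1)
    obtain ⟨y, hy⟩ := hne
    exact ⟨M, h, y, hM, hh, hy⟩
  choose M h y hM hh hy using h1
  obtain ⟨δ, hδ, hb⟩ := norm_bound hpt
  have hMpos : ∀ k, (0 : ℝ) < M k := fun k => by
    have := hM k
    exact_mod_cast (by omega : 0 < M k)
  have hsum : ∀ k ρ, (h k ρ : ℝ) / M k + ∑ i, (y k i : ℝ) / M k * (n i ρ : ℝ) =
      ((h k ρ : ℝ) + ∑ i, (y k i : ℝ) * (n i ρ : ℝ)) / M k := by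
    intro k ρ
    rw [add_div, Finset.sum_div]
    congr 1
    exact Finset.sum_congr rfl fun i _ => by ring
  have hge : ∀ k ρ, (-1 : ℝ) ≤ (h k ρ : ℝ) + ∑ i, (y k i : ℝ) * (n i ρ : ℝ) := by
    intro k ρ
    have h2 : -1 ≤ h k ρ + ∑ i, y k i * n i ρ := by
      by_cases hρ : ρ ∈ S
      · rw [(hy k ρ).1 hρ]
      · have := (hy k ρ).2 hρ
        omega
    exact_mod_cast h2
  have hbound : ∀ k, (fun i => (y k i : ℝ) / M k) ∈
      Metric.closedBall (0 : A → ℝ) ((∑ ρ, (|g ρ| + 1) + 1) / δ) := by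
    intro k
    rw [mem_closedBall_zero_iff]
    refine (hb (fun ρ => (h k ρ : ℝ) / M k) 1 zero_le_one _ (fun ρ => ?_)).trans ?_
    · rw [hsum, le_div_iff₀ (hMpos k)]
      have h2 := hge k ρ
      have h3 : (1 : ℝ) ≤ M k := by
        have := hM k
        exact_mod_cast (by omega : 1 ≤ M k)
      linarith
    · gcongr with ρ
      have h2 := hh k ρ
      have h3 : |(h k ρ : ℝ) / M k - g ρ| ≤ 1 := by
        have e1 : (h k ρ : ℝ) / M k - g ρ = ((h k ρ : ℝ) - M k * g ρ) / M k := by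
          field_simp [(hMpos k).ne']
        rw [e1, abs_div, abs_of_pos (hMpos k), div_le_iff₀ (hMpos k)]
        refine h2.trans ?_
        have : 1 / ((k : ℝ) + 1) ≤ 1 := by
          rw [div_le_one (by positivity)]
          linarith [(Nat.cast_nonneg k : (0 : ℝ) ≤ k)]
        nlinarith [hMpos k]
      have h4 := abs_sub_abs_le_abs_sub ((h k ρ : ℝ) / M k) (g ρ)
      linarith
  obtain ⟨w, -, φ, hφ, hlim⟩ :=
    (isCompact_closedBall (0 : A → ℝ) ((∑ ρ, (|g ρ| + 1) + 1) / δ)).tendsto_subseq hbound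
  have hk : Filter.Tendsto (fun k => (1 : ℝ) / ((φ k : ℝ) + 1)) Filter.atTop (nhds 0) :=
    (tendsto_one_div_add_atTop_nhds_zero_nat (𝕜 := ℝ)).comp hφ.tendsto_atTop
  have hMinv : ∀ k, (1 : ℝ) / M (φ k) ≤ 1 / ((φ k : ℝ) + 1) := by
    intro k
    apply one_div_le_one_div_of_le (by positivity)
    exact_mod_cast hM (φ k)
  have hinv0 : Filter.Tendsto (fun k => (1 : ℝ) / M (φ k)) Filter.atTop (nhds 0) :=
    squeeze_zero (fun k => by have := hMpos (φ k); positivity) hMinv hk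
  have htend : ∀ ρ, Filter.Tendsto (fun k => (h (φ k) ρ : ℝ) / M (φ k) +
      ∑ i, (y (φ k) i : ℝ) / M (φ k) * (n i ρ : ℝ)) Filter.atTop
      (nhds (g ρ + ∑ i, w i * (n i ρ : ℝ))) := by
    intro ρ
    refine Filter.Tendsto.add ?_ (tendsto_finsetSum _ fun i _ => ?_)
    · rw [tendsto_iff_norm_sub_tendsto_zero]
      refine squeeze_zero (fun _ => norm_nonneg _) (fun k => ?_) hk
      have e1 : (h (φ k) ρ : ℝ) / M (φ k) - g ρ =
          ((h (φ k) ρ : ℝ) - M (φ k) * g ρ) / M (φ k) := by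
        field_simp [(hMpos (φ k)).ne']
      rw [Real.norm_eq_abs, e1, abs_div, abs_of_pos (hMpos (φ k)), div_le_iff₀ (hMpos (φ k))]
      exact hh (φ k) ρ
    · exact ((tendsto_pi_nhds.1 hlim) i).mul_const _
  apply hS
  refine ⟨w, fun ρ => ?_, fun ρ hρ => ?_⟩
  · have h2 := hinv0.neg
    rw [neg_zero] at h2
    refine le_of_tendsto_of_tendsto' h2 (htend ρ) fun k => ?_
    rw [hsum, ← neg_div, div_le_div_iff_of_pos_right (hMpos (φ k))]
    exact hge (φ k) ρ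
  · have h2 := hinv0.neg
    rw [neg_zero] at h2
    refine tendsto_nhds_unique (htend ρ) (h2.congr fun k => ?_)
    rw [hsum, ← neg_div]
    congr 1
    have := (hy (φ k) ρ).1 hρ
    have h3 : (h (φ k) ρ : ℝ) + ∑ i, (y (φ k) i : ℝ) * (n i ρ : ℝ) = -1 := by exact_mod_cast this
    exact h3.symm

end

end Pool.Agent.Helper30_Simp2.H73
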