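import Pool.Agent.Helper73_Simp2.Tnum1

/-!
# MODULE TNUM, part 2: the ideal of shifts
-/

set_option autoImplicit false
set_option linter.unusedVariables false
set_option linter.unusedSectionVars false

namespace Pool.Agent.Helper30_Simp2.H73

open Finset

section ring

variable {W : Type}

/-- the ring of shifts -/
abbrev SR (W : Type) : Type := AddMonoidAlgebra ℤ (W → ℤ)

/-- the shift by `v` -/
noncomputable def T (v : W → ℤ) : SR W := AddMonoidAlgebra.single v 1

lemma T_add (v w : W → ℤ) : T (v + w) = T v * T w := by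
  unfold T
  rw [AddMonoidAlgebra.single_mul_single, one_mul]

lemma T_zero : T (0 : W → ℤ) = 1 := rfl

/-- the action by shifts -/
noncomputable def shiftHom (W : Type) :
    Multiplicative (W → ℤ) →* Module.End ℤ ((W → ℤ) → ℤ) where
  toFun v :=
    { toFun := fun F h => F (h + Multiplicative.toAdd v)
      map_add' := fun F G => rfl
      map_smul' := fun c F => rfl }
  map_one' := by
    ext F h
    simp
  map_mul' v w := by
    ext F h
    simp [add_assoc]

/-- the action of the ring of shifts -/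
noncomputable def act (p : SR W) (F : (W → ℤ) → ℤ) : (W → ℤ) → ℤ :=
  AddMonoidAlgebra.lift ℤ (Module.End ℤ ((W → ℤ) → ℤ)) (W → ℤ) (shiftHom W) p F

lemma act_T (v : W → ℤ) (F : (W → ℤ) → ℤ) (h : W → ℤ) : act (T v) F h = F (h + v) := by
  unfold act T
  rw [AddMonoidAlgebra.lift_single]
  simp [shiftHom]

lemma act_add (p q : SR W) (F : (W → ℤ) → ℤ) : act (p + q) F = act p F + act q F := by
  unfold act
  rw [map_add]
  rfl

lemma act_sub (p q : SR W) (F : (W → ℤ) → ℤ) : act (p - q) F = act p F - act q F := by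
  unfold act
  rw [map_sub]
  rfl

lemma act_one (F : (W → ℤ) → ℤ) : act 1 F = F := by
  unfold act
  rw [map_one]
  rfl

lemma act_mul (p q : SR W) (F : (W → ℤ) → ℤ) : act (p * q) F = act p (act q F) := by
  unfold act
  rw [map_mul]
  rfl

lemma act_zero (F : (W → ℤ) → ℤ) : act 0 F = 0 := by
  unfold act
  rw [map_zero]
  rfl

lemma act_smul (c : ℤ) (p : SR W) (F : (W → ℤ) → ℤ) : act (c • p) F = c • act p F := by
  unfold act
  rw [map_smul]
  rfl

end ring

section neg

variable {W : Type} [Fintype W]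

/-- the function vanishes near large multiples of `g` -/
def Neg (g : W → ℝ) (F : (W → ℤ) → ℤ) : Prop :=
  ∃ η : ℝ, 0 < η ∧ ∃ M₀ : ℕ, ∀ M : ℕ, M₀ ≤ M → ∀ h : W → ℤ,
    (∀ ρ, |(h ρ : ℝ) - M * g ρ| ≤ η * M) → F h = 0

lemma Neg.add {g : W → ℝ} {F G : (W → ℤ) → ℤ} (hF : Neg g F) (hG : Neg g G) : Neg g (F + G) := by
  obtain ⟨η, hη, M₀, h⟩ := hF
  obtain ⟨η', hη', M₀', h'⟩ := hG
  refine ⟨min η η', lt_min hη hη', max M₀ M₀', fun M hM k hk => ?_⟩
  have e1 := h M ((le_max_left _ _).trans hM) k fun ρ => (hk ρ).trans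
    (mul_le_mul_of_nonneg_right (min_le_left _ _) (Nat.cast_nonneg M))
  have e2 := h' M ((le_max_right _ _).trans hM) k fun ρ => (hk ρ).trans
    (mul_le_mul_of_nonneg_right (min_le_right _ _) (Nat.cast_nonneg M))
  simp [e1, e2]

lemma Neg.smul {g : W → ℝ} {F : (W → ℤ) → ℤ} (hF : Neg g F) (c : ℤ) : Neg g (c • F) := by
  obtain ⟨η, hη, M₀, h⟩ := hF
  exact ⟨η, hη, M₀, fun M hM k hk => by simp [h M hM k hk]⟩

lemma Neg.shift {g : W → ℝ} {F : (W → ℤ) → ℤ} (hF : Neg g F) (v : W → ℤ) :
    Neg g (fun h => F (h + v)) := by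
  obtain ⟨η, hη, M₀, h⟩ := hF
  set C : ℝ := ∑ ρ, |(v ρ : ℝ)| with hC
  refine ⟨η / 2, half_pos hη, max M₀ ⌈2 * C / η⌉₊, fun M hM k hk => ?_⟩
  refine h M ((le_max_left _ _).trans hM) _ fun ρ => ?_
  have h1 := hk ρ
  have h2 : |(v ρ : ℝ)| ≤ C :=
    Finset.single_le_sum (f := fun ρ => |(v ρ : ℝ)|) (fun _ _ => abs_nonneg _) (Finset.mem_univ ρ)
  have h3 : 2 * C / η ≤ M := (Nat.le_ceil _).trans (by exact_mod_cast (le_max_right _ _).trans hM)
  rw [div_le_iff₀ hη] at h3
  have h4 : ((k + v) ρ : ℝ) - M * g ρ = ((k ρ : ℝ) - M * g ρ) + v ρ := by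
    simp only [Pi.add_apply]
    push_cast
    ring
  have h5 : (((k + v) ρ : ℤ) : ℝ) - M * g ρ = ((k ρ : ℝ) - M * g ρ) + v ρ := by
    simp only [Pi.add_apply]
    push_cast
    ring
  rw [h5]
  have := abs_add_le ((k ρ : ℝ) - M * g ρ) (v ρ : ℝ)
  linarith

lemma Neg.act {g : W → ℝ} {F : (W → ℤ) → ℤ} (hF : Neg g F) (p : SR W) : Neg g (act p F) := by
  induction p using AddMonoidAlgebra.induction_on with
  | of v =>
    have : H73.act ((AddMonoidAlgebra.of ℤ (W → ℤ)) (Multiplicative.ofAdd v)) F =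
        fun h => F (h + v) := by
      funext h
      exact act_T v F h
    rw [this]
    exact hF.shift v
  | add x y hx hy =>
    rw [act_add]
    exact hx.add hy
  | smul r x hx =>
    rw [act_smul]
    exact hx.smul r

/-- the ideal of the shifts which kill `F` near large multiples of `g` -/
noncomputable def kill (g : W → ℝ) (F : (W → ℤ) → ℤ) : Ideal (SR W) where
  carrier := {p | Neg g (act p F)}
  add_mem' := fun {p q} hp hq => by
    simp only [Set.mem_ofPred_eq] at hp hq ⊢
    rw [act_add]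
    exact hp.add hq
  zero_mem' := by
    simp only [Set.mem_ofPred_eq]
    rw [act_zero]
    exact ⟨1, one_pos, 0, fun _ _ _ _ => rfl⟩
  smul_mem' := fun c p hp => by
    simp only [Set.mem_ofPred_eq, smul_eq_mul] at hp ⊢
    rw [act_mul]
    exact hp.act c

lemma mem_kill {g : W → ℝ} {F : (W → ℤ) → ℤ} {p : SR W} : p ∈ kill g F ↔ Neg g (act p F) :=
  Iff.rfl

end neg

section count

variable {A W : Type} [Fintype A] [Fintype W]

/-- the number of lattice points -/
noncomputable def Vn (n : A → W → ℤ) (h : W → ℤ) : ℤ :=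
  ({y : A → ℤ | ∀ ρ, 0 ≤ h ρ + ∑ i, y i * n i ρ}.ncard : ℤ)

lemma Vn_eq (n : A → W → ℤ) (h : W → ℤ) : Vn n h = ((QS n ∅ h).ncard : ℤ) := by
  unfold Vn QS
  simp

open scoped Classical in
/-- the operator of a set of walls -/
noncomputable def Xw (S : Finset W) : SR W := ∏ ρ ∈ S, (T (Pi.single ρ 1) - 1)

open scoped Classical in
lemma act_Xw {n : A → W → ℤ} (hpt : Pt n) (S : Finset W) (h : W → ℤ) :
    act (Xw S) (Vn n) h = ((QS n S h).ncard : ℤ) := by
  induction S using Finset.induction_on generalizing h with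
  | empty =>
    unfold Xw
    rw [Finset.prod_empty, act_one, Vn_eq]
  | insert ρ S hρ ih =>
    have e0 : Xw (insert ρ S) = (T (Pi.single ρ 1) - 1) * Xw S := by
      unfold Xw
      rw [Finset.prod_insert hρ]
    rw [e0, act_mul, act_sub, act_one, Pi.sub_apply, act_T, ih, ih]
    have e1 : QS n S (h + Pi.single ρ 1) = QS n S h ∪ QS n (insert ρ S) h := by
      ext y
      simp only [QS, Set.mem_ofPred_eq, Set.mem_union]
      constructor
      · intro hy
        by_cases hc : h ρ + ∑ i, y i * n i ρ = -1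
        · right
          intro τ
          by_cases hτ : τ = ρ
          · subst hτ
            simp [hc]
          · have := hy τ
            simp only [Pi.add_apply, Pi.single_eq_of_ne hτ, add_zero] at this
            simpa [hτ] using this
        · left
          intro τ
          by_cases hτ : τ = ρ
          · subst hτ
            refine ⟨fun hh => absurd hh hρ, fun _ => ?_⟩
            have := (hy τ).2 hρ
            simp only [Pi.add_apply, Pi.single_eq_same] at this
            omega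
          · have := hy τ
            simpa only [Pi.add_apply, Pi.single_eq_of_ne hτ, add_zero] using this
      · rintro (hy | hy) τ
        · by_cases hτ : τ = ρ
          · subst hτ
            refine ⟨fun hh => absurd hh hρ, fun _ => ?_⟩
            have := (hy τ).2 hρ
            simp only [Pi.add_apply, Pi.single_eq_same]
            omega
          · have := hy τ
            simpa only [Pi.add_apply, Pi.single_eq_of_ne hτ, add_zero] using this
        · by_cases hτ : τ = ρ
          · subst hτ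
            refine ⟨fun hh => absurd hh hρ, fun _ => ?_⟩
            have := (hy τ).1 (Finset.mem_insert_self τ S)
            simp only [Pi.add_apply, Pi.single_eq_same]
            omega
          · have := hy τ
            simp only [Finset.mem_insert, hτ, false_or] at this
            simpa only [Pi.add_apply, Pi.single_eq_of_ne hτ, add_zero] using this
    have e2 : Disjoint (QS n S h) (QS n (insert ρ S) h) := by
      rw [Set.disjoint_left]
      intro y hy hy'
      have h1 := (hy ρ).2 hρ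
      have h2 := (hy' ρ).1 (Finset.mem_insert_self ρ S)
      omega
    rw [e1, Set.ncard_union_eq e2 (QS_finite hpt _ _) (QS_finite hpt _ _)]
    push_cast
    ring

lemma Xw_mem {n : A → W → ℤ} (hpt : Pt n) (g : W → ℝ) (S : Finset W)
    (hS : ¬ ∃ y, TP n g S y) : Xw S ∈ kill g (Vn n) := by
  rw [mem_kill]
  obtain ⟨η, hη, M₀, h⟩ := nonface hpt g S hS
  refine ⟨η, hη, M₀, fun M hM k hk => ?_⟩
  rw [act_Xw hpt, h M hM k hk]
  simp

lemma ab_mem {n a b : A → W → ℤ} (g : W → ℝ) (hn : ∀ i ρ, n i ρ = a i ρ - b i ρ) (i : A) :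
    T (a i) - T (b i) ∈ kill g (Vn n) := by
  classical
  rw [mem_kill]
  refine ⟨1, one_pos, 0, fun M _ h _ => ?_⟩
  rw [act_sub, Pi.sub_apply, act_T, act_T, sub_eq_zero]
  unfold Vn
  congr 1
  refine Set.ncard_congr (fun y _ => y + Pi.single i 1) ?_ ?_ ?_
  · intro y hy ρ
    have := hy ρ
    have e : ∑ l, (y + Pi.single i 1 : A → ℤ) l * n l ρ = ∑ l, y l * n l ρ + n i ρ := by
      simp only [Pi.add_apply, add_mul, Finset.sum_add_distrib]
      congr 1
      rw [Finset.sum_eq_single i]
      · simp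
      · intro l _ hl
        simp [hl]
      · intro hh
        exact absurd (Finset.mem_univ i) hh
    rw [e, hn i ρ]
    simp only [Pi.add_apply] at this ⊢
    linarith
  · intro y z _ _ hyz
    exact add_right_cancel hyz
  · intro y hy
    refine ⟨y - Pi.single i 1, fun ρ => ?_, sub_add_cancel y _⟩
    have := hy ρ
    have e : ∑ l, (y - Pi.single i 1 : A → ℤ) l * n l ρ = ∑ l, y l * n l ρ - n i ρ := by
      simp only [Pi.sub_apply, sub_mul, Finset.sum_sub_distrib]
      congr 1
      rw [Finset.sum_eq_single i]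
      · simp
      · intro l _ hl
        simp [hl]
      · intro hh
        exact absurd (Finset.mem_univ i) hh
    rw [e, hn i ρ]
    simp only [Pi.add_apply] at this ⊢
    linarith

end count

section lem

variable {A W : Type} [Fintype A] [Fintype W]

/-- a vector with natural coefficients -/
lemma T_eq_prod [DecidableEq W] (v : W → ℤ) (hv : ∀ ρ, 0 ≤ v ρ) :
    T v = ∏ ρ, T (Pi.single ρ 1) ^ (v ρ).toNat := by
  have key : ∀ s : Finset W, T (fun ρ => if ρ ∈ s then v ρ else 0) =
      ∏ ρ ∈ s, T (Pi.single ρ 1) ^ (v ρ).toNat := by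
    intro s
    induction s using Finset.induction_on with
    | empty =>
      simp only [Finset.notMem_empty, if_false, Finset.prod_empty]
      exact T_zero
    | insert ρ s hρ ih =>
      rw [Finset.prod_insert hρ, ← ih]
      have e1 : (fun τ => if τ ∈ insert ρ s then v τ else 0) =
          (v ρ).toNat • (Pi.single ρ 1 : W → ℤ) + fun τ => if τ ∈ s then v τ else 0 := by
        funext τ
        by_cases hτ : τ = ρ
        · subst hτ
          rw [Pi.add_apply, Pi.smul_apply, Pi.single_eq_same, if_pos (Finset.mem_insert_self τ s),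
            if_neg hρ, add_zero, nsmul_eq_mul, mul_one]
          exact (Int.toNat_of_nonneg (hv τ)).symm
        · simp [hτ]
      rw [e1, T_add]
      congr 1
      induction (v ρ).toNat with
      | zero =>
        rw [zero_smul, pow_zero]
        exact T_zero
      | succ k ih2 => rw [succ_nsmul, T_add, ih2, pow_succ]
  have := key univ
  simpa using this

lemma mem_of_steps {a : Ideal (SR W)} [DecidableEq W] (q : SR W) (v : W → ℤ) (hv : ∀ ρ, 0 ≤ v ρ)
    (h : ∀ ρ, v ρ ≠ 0 → (T (Pi.single ρ 1) - 1) * q ∈ a) : (T v - 1) * q ∈ a := by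
  rw [T_eq_prod v hv]
  have key : ∀ s : Finset W, (∏ ρ ∈ s, T (Pi.single ρ 1) ^ (v ρ).toNat - 1) * q ∈ a := by
    intro s
    induction s using Finset.induction_on with
    | empty => simp
    | insert ρ s hρ ih =>
      rw [Finset.prod_insert hρ]
      have h2 : ((T (Pi.single ρ 1) : SR W) ^ (v ρ).toNat - 1) * q ∈ a := by
        by_cases h0 : v ρ = 0
        · simp [h0]
        · obtain ⟨r, hr⟩ := sub_dvd_pow_sub_pow (T (Pi.single ρ 1) : SR W) 1 (v ρ).toNat
          rw [one_pow] at hr
          rw [hr]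
          have := a.mul_mem_left r (h ρ h0)
          convert this using 1
          ring
      have h3 := a.add_mem (a.mul_mem_left (∏ x ∈ s, T (Pi.single x 1) ^ (v x).toNat) h2) ih
      convert h3 using 1
      ring
  exact key univ

/-- relatively interior points of the face of `S` -/
def RP (n : A → W → ℤ) (g : W → ℝ) (S : Finset W) (y : A → ℝ) : Prop :=
  TP n g S y ∧ ∀ ρ, g ρ + ∑ i, y i * (n i ρ : ℝ) = 0 → ∀ y', TP n g S y' →
    g ρ + ∑ i, y' i * (n i ρ : ℝ) = 0

lemma exists_rp {n : A → W → ℤ} {g : W → ℝ} {S : Finset W} (hS : ∃ y, TP n g S y) :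
    ∃ y, RP n g S y := by
  classical
  have key : ∀ s : Finset W, ∃ y, TP n g S y ∧ ∀ ρ ∈ s, g ρ + ∑ i, y i * (n i ρ : ℝ) = 0 →
      ∀ y', TP n g S y' → g ρ + ∑ i, y' i * (n i ρ : ℝ) = 0 := by
    intro s
    induction s using Finset.induction_on with
    | empty =>
      obtain ⟨y, hy⟩ := hS
      exact ⟨y, hy, fun ρ hρ => absurd hρ (Finset.notMem_empty ρ)⟩
    | insert τ s hτ ih =>
      obtain ⟨y, hy, hy'⟩ := ih
      by_cases hc : ∀ y', TP n g S y' → g τ + ∑ i, y' i * (n i τ : ℝ) = 0
      · refine ⟨y, hy, fun ρ hρ h0 => ?_⟩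
        rcases Finset.mem_insert.1 hρ with rfl | hρ
        · exact hc
        · exact hy' ρ hρ h0
      · push Not at hc
        obtain ⟨z, hz, hne⟩ := hc
        have hmid : ∀ ρ, g ρ + ∑ i, (fun i => (y i + z i) / 2) i * (n i ρ : ℝ) =
            ((g ρ + ∑ i, y i * (n i ρ : ℝ)) + (g ρ + ∑ i, z i * (n i ρ : ℝ))) / 2 := by
          intro ρ
          have : ∑ i, (y i + z i) / 2 * (n i ρ : ℝ) =
              (∑ i, y i * (n i ρ : ℝ) + ∑ i, z i * (n i ρ : ℝ)) / 2 := by
            rw [← Finset.sum_add_distrib, Finset.sum_div]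
            exact Finset.sum_congr rfl fun i _ => by ring
          simp only [this]
          ring
        refine ⟨fun i => (y i + z i) / 2, ⟨fun ρ => ?_, fun ρ hρ => ?_⟩, fun ρ hρ h0 => ?_⟩
        · rw [hmid]
          have := hy.1 ρ
          have := hz.1 ρ
          linarith
        · rw [hmid, hy.2 ρ hρ, hz.2 ρ hρ]
          norm_num
        · rw [hmid] at h0
          have h1 := hy.1 ρ
          have h2 := hz.1 ρ
          rcases Finset.mem_insert.1 hρ with rfl | hρ
          · exact absurd (by linarith) hne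
          · exact hy' ρ hρ (by linarith)
  obtain ⟨y, hy, hy'⟩ := key univ
  exact ⟨y, hy, fun ρ => hy' ρ (Finset.mem_univ ρ)⟩

/-- the coefficients vanish on the walls which are tight at `y` -/
def Van (n : A → W → ℤ) (g : W → ℝ) (a : A → W → ℤ) (y : A → ℝ) (i : A) : Prop :=
  ∀ ρ, g ρ + ∑ l, y l * (n l ρ : ℝ) = 0 → a i ρ = 0

/-- the condition on the faces -/
def Star (n : A → W → ℤ) (g : W → ℝ) (a b : A → W → ℤ) : Prop :=
  ∀ y : A → ℝ, (∀ ρ, 0 ≤ g ρ + ∑ i, y i * (n i ρ : ℝ)) →
    (∃ ρ, g ρ + ∑ i, y i * (n i ρ : ℝ) = 0) → ∃ i, ¬ (Van n g a y i ↔ Van n g b y i)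

open scoped Classical in
theorem lemK {n a b : A → W → ℤ} (hpt : Pt n) (g : W → ℝ) (hn : ∀ i ρ, n i ρ = a i ρ - b i ρ)
    (ha : ∀ i ρ, 0 ≤ a i ρ) (hb : ∀ i ρ, 0 ≤ b i ρ) (hst : Star n g a b) :
    ∀ (m : ℕ) (S : Finset W), (univ \ S).card = m → S.Nonempty → ∀ L : Finset A,
      (∀ y, RP n g S y → ∀ i, (Van n g a y i ∨ Van n g b y i) → i ∈ L) →
      Xw S * ∏ i ∈ L, (T (a i) - 1) ∈ kill g (Vn n) := by
  intro m
  induction m using Nat.strong_induction_on with
  | _ m ih =>
  intro S hm hSne L hL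
  by_cases hS : ∃ y, TP n g S y
  swap
  · exact Ideal.mul_mem_right _ _ (Xw_mem hpt g S hS)
  obtain ⟨y, hy⟩ := exists_rp hS
  obtain ⟨ρ₀, hρ₀⟩ := hSne
  obtain ⟨i, hi⟩ := hst y hy.1.1 ⟨ρ₀, hy.1.2 ρ₀ hρ₀⟩
  have hiL : i ∈ L := by
    apply hL y hy
    by_contra hcon
    push Not at hcon
    exact hi ⟨fun h => absurd h hcon.1, fun h => absurd h hcon.2⟩
  -- the general step
  have step : ∀ v : W → ℤ, (∀ ρ, 0 ≤ v ρ) →
      (∀ ρ, g ρ + ∑ l, y l * (n l ρ : ℝ) = 0 → v ρ = 0) →
      (∀ (ρ : W) (y' : A → ℝ), v ρ ≠ 0 → RP n g (insert ρ S) y' →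
        ¬ (Van n g a y' i ∨ Van n g b y' i)) →
      (T v - 1) * (Xw S * ∏ i ∈ L.erase i, (T (a i) - 1)) ∈ kill g (Vn n) := by
    intro v hv hv0 hvi
    refine mem_of_steps _ v hv fun ρ hρ => ?_
    have hρS : ρ ∉ S := fun h => hρ (hv0 ρ (hy.1.2 ρ h))
    have e1 : (T (Pi.single ρ 1) - 1) * (Xw S * ∏ i ∈ L.erase i, (T (a i) - 1)) =
        Xw (insert ρ S) * ∏ i ∈ L.erase i, (T (a i) - 1) := by
      unfold Xw
      rw [Finset.prod_insert hρS, mul_assoc]
    rw [e1]
    refine ih _ ?_ (insert ρ S) rfl (Finset.insert_nonempty ρ S) (L.erase i) ?_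
    · rw [← hm]
      apply Finset.card_lt_card
      refine ⟨Finset.sdiff_subset_sdiff (Finset.Subset.refl _) (Finset.subset_insert ρ S),
        fun hh => ?_⟩
      have := hh (Finset.mem_sdiff.2 ⟨Finset.mem_univ ρ, hρS⟩)
      simp at this
    · intro y' hy' k hk
      have hTP : TP n g S y' := ⟨hy'.1.1, fun τ hτ => hy'.1.2 τ (Finset.mem_insert_of_mem hτ)⟩
      refine Finset.mem_erase.2 ⟨?_, hL y hy k ?_⟩
      · rintro rfl
        exact hvi ρ y' hρ hy' hk
      · rcases hk with hk | hk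
        · exact Or.inl fun τ hτ => hk τ (hy.2 τ hτ y' hTP)
        · exact Or.inr fun τ hτ => hk τ (hy.2 τ hτ y' hTP)
  have hup : ∀ (ρ : W) (y' : A → ℝ) (c : A → W → ℤ), RP n g (insert ρ S) y' →
      Van n g c y' i → Van n g c y i := by
    intro ρ y' c hy' hc τ hτ
    exact hc τ (hy.2 τ hτ y' ⟨hy'.1.1, fun τ hτ => hy'.1.2 τ (Finset.mem_insert_of_mem hτ)⟩)
  rw [← Finset.mul_prod_erase L _ hiL]
  by_cases hai : Van n g a y i
  · have hbi : ¬ Van n g b y i := fun h => hi ⟨fun _ => h, fun _ => hai⟩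
    have := step (a i) (ha i) hai (fun ρ y' hρ hy' => by
      rintro (h | h)
      · exact hρ (h ρ (hy'.1.2 ρ (Finset.mem_insert_self ρ S)))
      · exact hbi (hup ρ y' b hy' h))
    convert this using 1
    ring
  · have hbi : Van n g b y i := by
      by_contra h
      exact hi ⟨fun h' => absurd h' hai, fun h' => absurd h' h⟩
    have h1 := step (b i) (hb i) hbi (fun ρ y' hρ hy' => by
      rintro (h | h)
      · exact hai (hup ρ y' a hy' h)
      · exact hρ (h ρ (hy'.1.2 ρ (Finset.mem_insert_self ρ S))))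
    have h2 := Ideal.mul_mem_right (Xw S * ∏ i ∈ L.erase i, (T (a i) - 1)) _
      (ab_mem (a := a) (b := b) g hn i)
    have := Ideal.add_mem _ h2 h1
    convert this using 1
    ring

open scoped Classical in
/-- the last factor may be replaced by the positive part -/
theorem repl {n a b : A → W → ℤ} (hpt : Pt n) (g : W → ℝ) (hn : ∀ i ρ, n i ρ = a i ρ - b i ρ)
    (ha : ∀ i ρ, 0 ≤ a i ρ) (hb : ∀ i ρ, 0 ≤ b i ρ) (hst : Star n g a b) (r : A) :
    (∏ i ∈ univ.erase r, (T (a i) - 1)) * (T (a r) - T (fun ρ => max (n r ρ) 0)) ∈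
      kill g (Vn n) := by
  set t : W → ℤ := fun ρ => max (n r ρ) 0 with ht
  set e : W → ℤ := fun ρ => min (a r ρ) (b r ρ) with he
  have hte : a r = t + e := by
    funext ρ
    have := hn r ρ
    simp only [ht, he, Pi.add_apply]
    omega
  have h1 : (T e - 1) * ∏ i ∈ univ.erase r, (T (a i) - 1) ∈ kill g (Vn n) := by
    refine mem_of_steps _ e (fun ρ => le_min (ha r ρ) (hb r ρ)) fun ρ hρ => ?_
    have := lemK hpt g hn ha hb hst _ {ρ} rfl (Finset.singleton_nonempty ρ) (univ.erase r) (by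
      intro y hy i hi
      refine Finset.mem_erase.2 ⟨?_, Finset.mem_univ i⟩
      rintro rfl
      have h2 := hy.1.2 ρ (Finset.mem_singleton_self ρ)
      have h3 := ha i ρ
      have h4 := hb i ρ
      simp only [he] at hρ
      rcases hi with hi | hi
      · have := hi ρ h2
        omega
      · have := hi ρ h2
        omega)
    have e1 : Xw ({ρ} : Finset W) = T (Pi.single ρ 1) - 1 := by
      unfold Xw
      rw [Finset.prod_singleton]
    rw [e1] at this
    exact this
  rw [hte, T_add]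
  have := Ideal.mul_mem_left _ (T t) h1
  convert this using 1
  ring

end lem

end Pool.Agent.Helper30_Simp2.H73
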