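import Pool.Agent.Helper73_Simp2.Tnum2

/-!
# MODULE TNUM, part 3: elimination of a variable
-/

set_option autoImplicit false
set_option linter.unusedVariables false
set_option linter.unusedSectionVars false

namespace Pool.Agent.Helper30_Simp2.H73

open Finset

section D

variable {A W : Type}

/-- the mixed difference -/
def DD (s : Finset A) (v : A → W → ℤ) (F : (W → ℤ) → ℤ) (h : W → ℤ) : ℤ :=
  ∑ e ∈ s.powerset, (-1) ^ (s.card - e.card) * F (h + ∑ i ∈ e, v i)

lemma act_prod [DecidableEq A] (s : Finset A) (v : A → W → ℤ) (F : (W → ℤ) → ℤ) (h : W → ℤ) :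
    act (∏ i ∈ s, (T (v i) - 1)) F h = DD s v F h := by
  induction s using Finset.induction_on generalizing h with
  | empty =>
    rw [Finset.prod_empty, act_one]
    simp [DD]
  | insert i s hi ih =>
    rw [Finset.prod_insert hi, act_mul, act_sub, act_one, Pi.sub_apply, act_T, ih, ih]
    unfold DD
    rw [Finset.sum_powerset_insert hi, sub_eq_neg_add, ← Finset.sum_neg_distrib]
    congr 1
    · refine Finset.sum_congr rfl fun e he => ?_
      rw [Finset.card_insert_of_notMem hi,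
        Nat.sub_add_comm (Finset.card_le_card (Finset.mem_powerset.1 he)), pow_succ]
      ring
    · refine Finset.sum_congr rfl fun e he => ?_
      have hie : i ∉ e := fun hh => hi (Finset.mem_powerset.1 he hh)
      rw [Finset.card_insert_of_notMem hi, Finset.card_insert_of_notMem hie,
        Finset.sum_insert hie, Nat.add_sub_add_right, add_assoc]

end D

section pairs

variable {W : Type}

/-- the pairs of walls of opposite sign -/
abbrev PW (c : W → ℤ) : Type := {ρ : W // 0 < c ρ} × {ρ : W // c ρ < 0}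

/-- the value on the pair -/
def pr {R : Type} [CommRing R] (c : W → ℤ) (f : W → R) (q : PW c) : R :=
  ((-(c q.2) : ℤ) : R) * f q.1 + ((c q.1 : ℤ) : R) * f q.2

/-- extension to the pairs -/
def ex1 {R : Type} [CommRing R] (c : W → ℤ) (f : W → R) : W ⊕ PW c → R := Sum.elim f (pr c f)

/-- the walls of value zero and the pairs -/
def ex2 {R : Type} [CommRing R] (c : W → ℤ) (f : W → R) : {ρ : W // c ρ = 0} ⊕ PW c → R :=
  Sum.elim (fun ρ => f ρ) (pr c f)

lemma pr_add {R : Type} [CommRing R] (c : W → ℤ) (f f' : W → R) (q : PW c) :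
    pr c (f + f') q = pr c f q + pr c f' q := by
  simp only [pr, Pi.add_apply]
  ring

lemma ex1_add {R : Type} [CommRing R] (c : W → ℤ) (f f' : W → R) :
    ex1 c (f + f') = ex1 c f + ex1 c f' := by
  funext w
  rcases w with ρ | q
  · rfl
  · exact pr_add c f f' q

lemma ex2_add {R : Type} [CommRing R] (c : W → ℤ) (f f' : W → R) :
    ex2 c (f + f') = ex2 c f + ex2 c f' := by
  funext w
  rcases w with ρ | q
  · rfl
  · exact pr_add c f f' q

lemma ex1_sum {ι : Type} (c : W → ℤ) (s : Finset ι) (f : ι → W → ℤ) :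
    ex1 c (∑ i ∈ s, f i) = ∑ i ∈ s, ex1 c (f i) := by
  classical
  induction s using Finset.induction_on with
  | empty =>
    funext w
    rcases w with ρ | q
    · simp [ex1]
    · simp [ex1, pr]
  | insert i s hi ih => rw [Finset.sum_insert hi, Finset.sum_insert hi, ex1_add, ih]

lemma ex2_sum {ι : Type} (c : W → ℤ) (s : Finset ι) (f : ι → W → ℤ) :
    ex2 c (∑ i ∈ s, f i) = ∑ i ∈ s, ex2 c (f i) := by
  classical
  induction s using Finset.induction_on with
  | empty =>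
    funext w
    rcases w with ρ | q
    · simp [ex2]
    · simp [ex2, pr]
  | insert i s hi ih => rw [Finset.sum_insert hi, Finset.sum_insert hi, ex2_add, ih]

lemma pr_lin {R : Type} [CommRing R] {ι : Type} [Fintype ι] (c : W → ℤ) (f : W → R) (n : ι → W → ℤ)
    (y : ι → R) (q : PW c) : pr c f q + ∑ i, y i * ((pr c (n i) q : ℤ) : R) =
      pr c (fun ρ => f ρ + ∑ i, y i * ((n i ρ : ℤ) : R)) q := by
  simp only [pr]
  push_cast
  rw [mul_add, mul_add, Finset.mul_sum, Finset.mul_sum]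
  have : ∑ i, y i * (-(c q.2 : R) * (n i q.1 : R) + (c q.1 : R) * (n i q.2 : R)) =
      ∑ i, -(c q.2 : R) * (y i * (n i q.1 : R)) + ∑ i, (c q.1 : R) * (y i * (n i q.2 : R)) := by
    rw [← Finset.sum_add_distrib]
    exact Finset.sum_congr rfl fun i _ => by ring
  rw [this]
  ring

lemma pr_self (c : W → ℤ) (q : PW c) : pr c c q = 0 := by
  simp only [pr, Int.cast_id]
  ring

lemma pr_nonneg {c : W → ℤ} {f : W → ℤ} (hf : ∀ ρ, 0 ≤ f ρ) (q : PW c) : 0 ≤ pr c f q := by
  have h1 := q.1.2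
  have h2 := q.2.2
  simp only [pr, Int.cast_id]
  have h3 := mul_nonneg (by omega : 0 ≤ -c q.2) (hf q.1)
  have h4 := mul_nonneg h1.le (hf q.2)
  linarith

lemma pr_eq_zero {c : W → ℤ} {f : W → ℤ} (hf : ∀ ρ, 0 ≤ f ρ) (q : PW c) :
    pr c f q = 0 ↔ f q.1 = 0 ∧ f q.2 = 0 := by
  have h1 := q.1.2
  have h2 := q.2.2
  simp only [pr, Int.cast_id]
  have h3 := mul_nonneg (by omega : 0 ≤ -c q.2) (hf q.1)
  have h4 := mul_nonneg h1.le (hf q.2)
  constructor
  · intro h
    have e1 : -c q.2 * f q.1 = 0 := by linarith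
    have e2 : c q.1 * f q.2 = 0 := by linarith
    exact ⟨(mul_eq_zero.1 e1).resolve_left (by omega), (mul_eq_zero.1 e2).resolve_left (by omega)⟩
  · rintro ⟨e1, e2⟩
    rw [e1, e2]
    ring

lemma pr_tight {c : W → ℤ} {f : W → ℝ} (q : PW c) (h1 : 0 ≤ f q.1) (h2 : 0 ≤ f q.2) :
    pr c f q = 0 ↔ f q.1 = 0 ∧ f q.2 = 0 := by
  have hp : (0 : ℝ) < c q.1 := by exact_mod_cast q.1.2
  have hm : (c q.2 : ℝ) < 0 := by exact_mod_cast q.2.2
  simp only [pr]
  push_cast
  have h3 := mul_nonneg (by linarith : 0 ≤ -(c q.2 : ℝ)) h1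
  have h4 := mul_nonneg hp.le h2
  constructor
  · intro h
    have e1 : -(c q.2 : ℝ) * f q.1 = 0 := by linarith
    have e2 : (c q.1 : ℝ) * f q.2 = 0 := by linarith
    exact ⟨(mul_eq_zero.1 e1).resolve_left (by linarith),
      (mul_eq_zero.1 e2).resolve_left (by linarith)⟩
  · rintro ⟨e1, e2⟩
    rw [e1, e2]
    ring

lemma pr_real_nonneg {c : W → ℤ} {f : W → ℝ} (q : PW c) (h1 : 0 ≤ f q.1) (h2 : 0 ≤ f q.2) :
    0 ≤ pr c f q := by
  have hp : (0 : ℝ) < c q.1 := by exact_mod_cast q.1.2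
  have hm : (c q.2 : ℝ) < 0 := by exact_mod_cast q.2.2
  simp only [pr]
  push_cast
  have h3 := mul_nonneg (by linarith : 0 ≤ -(c q.2 : ℝ)) h1
  have h4 := mul_nonneg hp.le h2
  linarith

/-- elimination of a real variable -/
lemma lift_real [Fintype W] (c : W → ℤ) (s : W → ℝ) (hp : ∃ ρ, 0 < c ρ) (hm : ∃ ρ, c ρ < 0)
    (h0 : ∀ ρ, c ρ = 0 → 0 ≤ s ρ) (hpr : ∀ q : PW c, 0 ≤ pr c s q) :
    ∃ z : ℝ, (∀ ρ, 0 ≤ s ρ + z * c ρ) ∧ ((∀ ρ, c ρ ≠ 0 → 0 < s ρ + z * c ρ) ∨
      ∃ q : PW c, s q.1 + z * c q.1 = 0 ∧ s q.2 + z * c q.2 = 0) := by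
  classical
  obtain ⟨p₀, hp₀⟩ := hp
  obtain ⟨m₀, hm₀⟩ := hm
  obtain ⟨p, hpm, hpmax⟩ := Finset.exists_max_image (univ.filter fun ρ => 0 < c ρ)
    (fun ρ => - s ρ / c ρ) ⟨p₀, by simpa using hp₀⟩
  obtain ⟨m, hmm, hmmin⟩ := Finset.exists_min_image (univ.filter fun ρ => c ρ < 0)
    (fun ρ => s ρ / (-(c ρ))) ⟨m₀, by simpa using hm₀⟩
  have hcp : 0 < c p := by simpa using hpm
  have hcm : c m < 0 := by simpa using hmm
  have hcp' : (0 : ℝ) < c p := by exact_mod_cast hcp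
  have hcm' : (c m : ℝ) < 0 := by exact_mod_cast hcm
  set l := - s p / c p with hl
  set u := s m / (-(c m : ℝ)) with hu
  have hlu : l ≤ u := by
    rw [hl, hu, div_le_div_iff₀ hcp' (by linarith)]
    have := hpr (⟨p, hcp⟩, ⟨m, hcm⟩)
    simp only [pr] at this
    push_cast at this
    linarith
  have hP : ∀ ρ, 0 < c ρ → ∀ z, l ≤ z → 0 ≤ s ρ + z * c ρ ∧ (l < z → 0 < s ρ + z * c ρ) := by
    intro ρ hρ z hz
    have h1 := hpmax ρ (by simpa using hρ)
    have h2 : (0 : ℝ) < c ρ := by exact_mod_cast hρ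
    constructor
    · have := (h1.trans hz)
      rw [div_le_iff₀ h2] at this
      linarith
    · intro hlt
      have := (h1.trans_lt hlt)
      rw [div_lt_iff₀ h2] at this
      linarith
  have hM : ∀ ρ, c ρ < 0 → ∀ z, z ≤ u → 0 ≤ s ρ + z * c ρ ∧ (z < u → 0 < s ρ + z * c ρ) := by
    intro ρ hρ z hz
    have h1 := hmmin ρ (by simpa using hρ)
    have h2 : (c ρ : ℝ) < 0 := by exact_mod_cast hρ
    constructor
    · have := (hz.trans h1)
      rw [le_div_iff₀ (by linarith)] at this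
      linarith
    · intro hlt
      have := (hlt.trans_le h1)
      rw [lt_div_iff₀ (by linarith)] at this
      linarith
  refine ⟨(l + u) / 2, fun ρ => ?_, ?_⟩
  · rcases lt_trichotomy (c ρ) 0 with h | h | h
    · exact (hM ρ h _ (by linarith)).1
    · rw [h]
      have := h0 ρ h
      simpa using this
    · exact (hP ρ h _ (by linarith)).1
  · rcases hlu.lt_or_eq with hlt | heq
    · left
      intro ρ hρ
      rcases lt_or_gt_of_ne hρ with h | h
      · exact (hM ρ h _ (by linarith)).2 (by linarith)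
      · exact (hP ρ h _ (by linarith)).2 (by linarith)
    · right
      have e1 : (l + u) / 2 = l := by linarith
      have e2 : (l + u) / 2 = u := by linarith
      refine ⟨(⟨p, hcp⟩, ⟨m, hcm⟩), ?_, ?_⟩
      · show s p + (l + u) / 2 * c p = 0
        rw [e1, hl]
        field_simp
        ring
      · show s m + (l + u) / 2 * c m = 0
        have hne := hcm'.ne
        rw [e2, hu, div_neg]
        field_simp
        ring

end pairs

section elim

variable {A W : Type} [Fintype A] [Fintype W] [DecidableEq A]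

lemma exists_signs {n : A → W → ℤ} (hpt : Pt n) (r : A) : (∃ ρ, 0 < n r ρ) ∧ ∃ ρ, n r ρ < 0 := by
  constructor
  · by_contra hcon
    push Not at hcon
    have := hpt (Pi.single r (-1)) (fun ρ => by
      rw [Finset.sum_eq_single r]
      · simp only [Pi.single_eq_same]
        have : (n r ρ : ℝ) ≤ 0 := by exact_mod_cast hcon ρ
        linarith
      · intro i _ hi
        simp [hi]
      · intro hh
        exact absurd (Finset.mem_univ r) hh)
    have h2 := congrFun this r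
    simp at h2
  · by_contra hcon
    push Not at hcon
    have := hpt (Pi.single r 1) (fun ρ => by
      rw [Finset.sum_eq_single r]
      · simp only [Pi.single_eq_same]
        have : (0 : ℝ) ≤ n r ρ := by exact_mod_cast hcon ρ
        linarith
      · intro i _ hi
        simp [hi]
      · intro hh
        exact absurd (Finset.mem_univ r) hh)
    have h2 := congrFun this r
    simp at h2

/-- the first system -/
def n1 (n : A → W → ℤ) (r : A) (i : A) : W ⊕ PW (n r) → ℤ := ex1 (n r) (n i)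

/-- the second system -/
def n2 (n : A → W → ℤ) (r : A) (i : {i : A // i ≠ r}) : {ρ : W // n r ρ = 0} ⊕ PW (n r) → ℤ :=
  ex2 (n r) (n i)

lemma pt1 {n : A → W → ℤ} (hpt : Pt n) (r : A) : Pt (n1 n r) := fun y hy =>
  hpt y fun ρ => hy (Sum.inl ρ)

lemma slack1 (n : A → W → ℤ) (r : A) (g : W → ℝ) (y : A → ℝ) (q : PW (n r)) :
    ex1 (n r) g (Sum.inr q) + ∑ i, y i * ((n1 n r i (Sum.inr q) : ℤ) : ℝ) =
      pr (n r) (fun ρ => g ρ + ∑ i, y i * ((n i ρ : ℤ) : ℝ)) q :=
  pr_lin (n r) g n y q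

lemma van1 {n : A → W → ℤ} (r : A) {g : W → ℝ} {a : A → W → ℤ} (ha : ∀ i ρ, 0 ≤ a i ρ)
    {y : A → ℝ} (hy : ∀ ρ, 0 ≤ g ρ + ∑ i, y i * (n i ρ : ℝ)) (i : A) :
    Van (n1 n r) (ex1 (n r) g) (fun i => ex1 (n r) (a i)) y i ↔ Van n g a y i := by
  constructor
  · intro h ρ hρ
    exact h (Sum.inl ρ) hρ
  · intro h w hw
    rcases w with ρ | q
    · exact h ρ hw
    · rw [slack1, pr_tight q (hy _) (hy _)] at hw
      exact (pr_eq_zero (ha i) q).2 ⟨h _ hw.1, h _ hw.2⟩

lemma star1 {n a b : A → W → ℤ} (r : A) {g : W → ℝ} (ha : ∀ i ρ, 0 ≤ a i ρ)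
    (hb : ∀ i ρ, 0 ≤ b i ρ) (hst : Star n g a b) :
    Star (n1 n r) (ex1 (n r) g) (fun i => ex1 (n r) (a i)) (fun i => ex1 (n r) (b i)) := by
  intro y hy ⟨w, hw⟩
  have hy' : ∀ ρ, 0 ≤ g ρ + ∑ i, y i * (n i ρ : ℝ) := fun ρ => hy (Sum.inl ρ)
  have hex : ∃ ρ, g ρ + ∑ i, y i * (n i ρ : ℝ) = 0 := by
    rcases w with ρ | q
    · exact ⟨ρ, hw⟩
    · rw [slack1, pr_tight q (hy' _) (hy' _)] at hw
      exact ⟨_, hw.1⟩
  obtain ⟨i, hi⟩ := hst y hy' hex
  refine ⟨i, ?_⟩
  rw [van1 r ha hy', van1 r hb hy']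
  exact hi

/-- a point of the polytope from a point of the projection -/
def full (r : A) {R : Type} (z : R) (y' : {i : A // i ≠ r} → R) : A → R :=
  fun i => if h : i = r then z else y' ⟨i, h⟩

lemma sum_full (r : A) {R : Type} [CommRing R] (z : R) (y' : {i : A // i ≠ r} → R) (f : A → R) :
    ∑ i, full r z y' i * f i = z * f r + ∑ i, y' i * f i.1 := by
  rw [Fintype.sum_eq_add_sum_subtype_ne _ r]
  congr 1
  · simp [full]
  · refine Finset.sum_congr rfl fun i _ => ?_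
    simp [full, i.2]

lemma pr_full {R : Type} [CommRing R] (n : A → W → ℤ) (r : A) (f : W → R) (z : R)
    (y' : {i : A // i ≠ r} → R) (q : PW (n r)) :
    pr (n r) (fun ρ => f ρ + ∑ i, full r z y' i * ((n i ρ : ℤ) : R)) q =
      pr (n r) f q + ∑ i, y' i * ((pr (n r) (n i.1) q : ℤ) : R) := by
  rw [← pr_lin, sum_full r z y' (fun i => ((pr (n r) (n i) q : ℤ) : R)), pr_self]
  simp

lemma exists_lift {n : A → W → ℤ} (hpt : Pt n) (r : A) (g : W → ℝ) (y' : {i : A // i ≠ r} → ℝ)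
    (hy : ∀ w, 0 ≤ ex2 (n r) g w + ∑ i, y' i * ((n2 n r i w : ℤ) : ℝ)) :
    ∃ z : ℝ, (∀ ρ, 0 ≤ g ρ + ∑ i, full r z y' i * ((n i ρ : ℤ) : ℝ)) ∧
      ((∀ ρ, n r ρ ≠ 0 → 0 < g ρ + ∑ i, full r z y' i * ((n i ρ : ℤ) : ℝ)) ∨
      ∃ q : PW (n r), g q.1 + ∑ i, full r z y' i * ((n i q.1 : ℤ) : ℝ) = 0 ∧
        g q.2 + ∑ i, full r z y' i * ((n i q.2 : ℤ) : ℝ) = 0) := by
  obtain ⟨hp, hm⟩ := exists_signs hpt r
  obtain ⟨z, hz1, hz2⟩ := lift_real (n r) (fun ρ => g ρ + ∑ i, y' i * ((n i.1 ρ : ℤ) : ℝ)) hp hm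
    (fun ρ hρ => hy (Sum.inl ⟨ρ, hρ⟩)) (fun q => by
      rw [← pr_lin (n r) g (fun i : {i : A // i ≠ r} => n i.1) y' q]
      exact hy (Sum.inr q))
  have e : ∀ ρ, g ρ + ∑ i, full r z y' i * ((n i ρ : ℤ) : ℝ) =
      g ρ + ∑ i, y' i * ((n i.1 ρ : ℤ) : ℝ) + z * n r ρ := by
    intro ρ
    rw [sum_full r z y' (fun i => ((n i ρ : ℤ) : ℝ))]
    ring
  refine ⟨z, fun ρ => ?_, ?_⟩
  · rw [e]
    exact hz1 ρ
  · rcases hz2 with h | ⟨q, h1, h2⟩
    · left
      intro ρ hρ
      rw [e]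
      exact h ρ hρ
    · right
      exact ⟨q, by rw [e]; exact h1, by rw [e]; exact h2⟩

lemma pt2 {n : A → W → ℤ} (hpt : Pt n) (r : A) : Pt (n2 n r) := by
  intro y' hy
  obtain ⟨z, hz, -⟩ := exists_lift hpt r 0 y' (fun w => by
    have := hy w
    rcases w with ρ | q
    · simpa [ex2] using this
    · simpa [ex2, pr] using this)
  have h := hpt (full r z y') (fun ρ => by simpa using hz ρ)
  funext i
  have := congrFun h i.1
  simpa [full, i.2] using this

lemma star2 {n a b : A → W → ℤ} (hpt : Pt n) (hn : ∀ i ρ, n i ρ = a i ρ - b i ρ) (r : A)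
    {g : W → ℝ} (ha : ∀ i ρ, 0 ≤ a i ρ) (hb : ∀ i ρ, 0 ≤ b i ρ) (hst : Star n g a b) :
    Star (n2 n r) (ex2 (n r) g) (fun i => ex2 (n r) (a i.1)) (fun i => ex2 (n r) (b i.1)) := by
  intro y' hy' ⟨w, hw⟩
  obtain ⟨z, hz1, hz2⟩ := exists_lift hpt r g y' hy'
  set y := full r z y' with hydef
  have s0 : ∀ ρ (hρ : n r ρ = 0), ex2 (n r) g (Sum.inl ⟨ρ, hρ⟩) +
      ∑ i, y' i * ((n2 n r i (Sum.inl ⟨ρ, hρ⟩) : ℤ) : ℝ) = g ρ + ∑ i, y i * ((n i ρ : ℤ) : ℝ) := by
    intro ρ hρ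
    rw [hydef, sum_full r z y' (fun i => ((n i ρ : ℤ) : ℝ)), hρ]
    simp [ex2, n2]
  have sq : ∀ q : PW (n r), ex2 (n r) g (Sum.inr q) +
      ∑ i, y' i * ((n2 n r i (Sum.inr q) : ℤ) : ℝ) =
      pr (n r) (fun ρ => g ρ + ∑ i, y i * ((n i ρ : ℤ) : ℝ)) q := by
    intro q
    rw [hydef, pr_full]
    rfl
  have hex : ∃ ρ, g ρ + ∑ i, y i * ((n i ρ : ℤ) : ℝ) = 0 := by
    rcases w with ρ | q
    · have := hw
      rw [s0 ρ.1 ρ.2] at this
      exact ⟨_, this⟩
    · rw [sq, pr_tight q (hz1 _) (hz1 _)] at hw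
      exact ⟨_, hw.1⟩
  obtain ⟨i, hi⟩ := hst y hz1 hex
  have hir : i ≠ r := by
    rintro rfl
    apply hi
    rcases hz2 with h | ⟨q, h1, h2⟩
    · constructor
      · intro hv ρ hρ
        have h3 := hv ρ hρ
        have h4 : n i ρ = 0 := by
          by_contra hne
          exact (h ρ hne).ne' hρ
        have := hn i ρ
        omega
      · intro hv ρ hρ
        have h3 := hv ρ hρ
        have h4 : n i ρ = 0 := by
          by_contra hne
          exact (h ρ hne).ne' hρ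
        have := hn i ρ
        omega
    · constructor
      · intro hv
        have h3 := hv _ h1
        have h4 := hn i q.1
        have h5 := hb i q.1
        have h6 := q.1.2
        omega
      · intro hv
        have h3 := hv _ h2
        have h4 := hn i q.2
        have h5 := ha i q.2
        have h6 := q.2.2
        omega
  have hvan : ∀ c : A → W → ℤ, (∀ i ρ, 0 ≤ c i ρ) →
      (Van (n2 n r) (ex2 (n r) g) (fun i => ex2 (n r) (c i.1)) y' ⟨i, hir⟩ ↔ Van n g c y i) := by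
    intro c hc
    constructor
    · intro hv ρ hρ
      by_cases h0 : n r ρ = 0
      · exact hv (Sum.inl ⟨ρ, h0⟩) (by rw [s0 ρ h0]; exact hρ)
      · rcases hz2 with h | ⟨q, h1, h2⟩
        · exact absurd hρ (h ρ h0).ne'
        · rcases lt_or_gt_of_ne h0 with hlt | hgt
          · have := hv (Sum.inr (q.1, ⟨ρ, hlt⟩)) (by
              rw [sq, pr_tight _ (hz1 _) (hz1 _)]
              exact ⟨h1, hρ⟩)
            exact ((pr_eq_zero (hc i) _).1 this).2
          · have := hv (Sum.inr (⟨ρ, hgt⟩, q.2)) (by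
              rw [sq, pr_tight _ (hz1 _) (hz1 _)]
              exact ⟨hρ, h2⟩)
            exact ((pr_eq_zero (hc i) _).1 this).1
    · intro hv w hw
      rcases w with ρ | q
      · rw [s0 ρ.1 ρ.2] at hw
        exact hv _ hw
      · rw [sq, pr_tight q (hz1 _) (hz1 _)] at hw
        exact (pr_eq_zero (hc i) q).2 ⟨hv _ hw.1, hv _ hw.2⟩
  exact ⟨⟨i, hir⟩, by rw [hvan a ha, hvan b hb]; exact hi⟩

end elim

end Pool.Agent.Helper30_Simp2.H73
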